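import Pool.Agent.Helper26_HM.Cocycle

/-!
# Class of a block
-/

namespace Pool.Agent.HM.H26

open Complex Set Topology

noncomputable section

/-! ### polar coordinates in the zone -/

def pol (p : ℝ × ℝ) : ℂ := p.1 * exp (I * p.2)

def DZ : Set (ℝ × ℝ) := Ioo 0 (1 / 2) ×ˢ univ

theorem norm_pol {p : ℝ × ℝ} (h : 0 < p.1) : ‖pol p‖ = p.1 := by
  unfold pol
  rw [norm_mul, mul_comm I, Complex.norm_exp_ofReal_mul_I, mul_one, Complex.norm_real,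
    Real.norm_of_nonneg h.le]

theorem dm_pol : Dm pol DZ := by
  refine ⟨(convex_Ioo _ _).prod convex_univ, ?_, ?_⟩
  · apply Continuous.continuousOn
    unfold pol
    fun_prop
  · intro p hp
    have h1 := norm_pol hp.1.1
    have h2 := hp.1.2
    have h3 := hp.1.1
    constructor
    · intro h0
      rw [h0, norm_zero] at h1
      linarith
    · intro h0
      rw [h0, norm_one] at h1
      linarith

theorem zone_C01 {z : ℂ} (h : Zone z) : z ∈ C01 := by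
  refine ⟨h.1, ?_⟩
  intro h1
  have := h.2
  rw [h1, norm_one] at this
  linarith

section Z

variable {E : Type*} [NormedAddCommGroup E] [NormedSpace ℝ E] {F : E → ℂ} {θ : E → ℝ} {D : Set E}
  {p q : E}

theorem zone_psi (hD : Convex ℝ D) (hF : ContinuousOn F D) (hz : ∀ x ∈ D, Zone (F x))
    (hθ : ContinuousOn θ D) (hl : ∀ x ∈ D, F x = ‖F x‖ * exp (I * θ x)) (hp : p ∈ D) (hq : q ∈ D) :
    psi F p q = psi pol (‖F p‖, θ p) (‖F q‖, θ q) := by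
  have hd : Dm F D := ⟨hD, hF, fun x hx => zone_C01 (hz x hx)⟩
  rw [← dm_pol.comp (α := fun x : E => (‖F x‖, θ x)) hD (hF.norm.prodMk hθ) ?_ hp hq]
  · exact hd.congr (fun x hx => by exact hl x hx) hp hq
  · intro x hx
    exact ⟨⟨norm_pos_iff.2 (hz x hx).1, (hz x hx).2⟩, trivial⟩

end Z

theorem zone_shift {r r' a a' : ℝ} (h : (r, a) ∈ DZ) (h' : (r', a') ∈ DZ) (N : ℤ) :
    psi pol (r, a + 2 * Real.pi * N) (r', a' + 2 * Real.pi * N) = psi pol (r, a) (r', a') := by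
  have := dm_pol.comp (α := fun x : ℝ × ℝ => (x.1, x.2 + 2 * Real.pi * N)) dm_pol.conv
    (by fun_prop) (fun x hx => ⟨hx.1, trivial⟩) h h'
  simp only at this
  rw [← this]
  congr 1
  funext x
  unfold pol
  simp only
  congr 1
  push_cast
  rw [mul_add, Complex.exp_add]
  have : exp (I * (2 * Real.pi * N)) = 1 := by
    rw [show I * (2 * (Real.pi : ℂ) * N) = N * (2 * Real.pi * I) by ring]
    exact Complex.exp_int_mul_two_pi_mul_I N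
  rw [this, mul_one]

/-! ### slit planes -/

def cen (l : Fin 3) : ℂ := if l = 0 then -1 else if l = 1 then 2 else 1 / 2

theorem cen_im (l : Fin 3) : (cen l).im = 0 := by
  unfold cen
  split_ifs <;> simp

theorem st_Opn (l : Fin 3) : St {z | Opn l z} (cen l) := by
  constructor
  · intro z hz t ht
    have ht0 := ht.1
    have ht1 := ht.2
    change Opn l z at hz
    show Opn l (cen l + t • (z - cen l))
    have him : (cen l + t • (z - cen l)).im = t * z.im := by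
      simp [cen_im]
    have hre : (cen l + t • (z - cen l)).re = (1 - t) * (cen l).re + t * z.re := by
      simp
      ring
    unfold Opn
    rw [him, hre]
    rcases eq_or_ne t 0 with h0 | h0
    · subst h0
      fin_cases l
      · right; left; simp [cen]
      · right; right; left; simp [cen]
      · right; right; right; simp [cen]; norm_num
    · rcases hz with h | ⟨rfl, h⟩ | ⟨rfl, h⟩ | ⟨rfl, h1, h2⟩
      · exact Or.inl (mul_ne_zero h0 h)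
      · right; left
        refine ⟨rfl, ?_⟩
        have : (cen 0).re = -1 := by simp [cen]
        rw [this]
        have htp : 0 < t := lt_of_le_of_ne ht0 (Ne.symm h0)
        nlinarith
      · right; right; left
        refine ⟨rfl, ?_⟩
        have : (cen 1).re = 2 := by simp [cen]
        rw [this]
        have htp : 0 < t := lt_of_le_of_ne ht0 (Ne.symm h0)
        nlinarith
      · right; right; right
        refine ⟨rfl, ?_, ?_⟩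
        · have : (cen 2).re = 1 / 2 := by simp [cen]
          rw [this]
          have htp : 0 < t := lt_of_le_of_ne ht0 (Ne.symm h0)
          nlinarith [mul_pos htp h1]
        · have : (cen 2).re = 1 / 2 := by simp [cen]
          rw [this]
          have htp : 0 < t := lt_of_le_of_ne ht0 (Ne.symm h0)
          nlinarith [mul_pos htp (sub_pos.2 h2)]
  · intro z hz
    rcases hz with h | ⟨_, h⟩ | ⟨_, h⟩ | ⟨_, h1, h2⟩
    · constructor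
      · intro h0; rw [h0] at h; simp at h
      · intro h0; rw [h0] at h; simp at h
    · constructor
      · intro h0; rw [h0] at h; simp at h
      · intro h0; rw [h0] at h; simp at h; linarith
    · constructor
      · intro h0; rw [h0] at h; simp at h; linarith
      · intro h0; rw [h0] at h; simp at h
    · constructor
      · intro h0; rw [h0] at h1; simp at h1
      · intro h0; rw [h0] at h2; simp at h2

/-- class of the segment from the centre -/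
def sg (l : Fin 3) (w : ℂ) : GG := psi (fun z : ℂ => z) (cen l) w

theorem sg_half {l l' : Fin 3} {w w' : ℂ} (h : (0 < w.im ∧ 0 < w'.im) ∨ (w.im < 0 ∧ w'.im < 0)) :
    (sg l w)⁻¹ * sg l w' = (sg l' w)⁻¹ * sg l' w' := by
  rcases h with ⟨h1, h2⟩ | ⟨h1, h2⟩
  · have key : ∀ l, psi (fun z : ℂ => z) w w' = (sg l w)⁻¹ * sg l w' := fun l =>
      star_class (st_Opn l) (D := {z : ℂ | 0 < z.im}) (F := fun z => z) (convex_halfSpace_im_gt 0)
        continuousOn_id (fun x hx => Or.inl (ne_of_gt hx)) h1 h2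
    rw [← key l, ← key l']
  · have key : ∀ l, psi (fun z : ℂ => z) w w' = (sg l w)⁻¹ * sg l w' := fun l =>
      star_class (st_Opn l) (D := {z : ℂ | z.im < 0}) (F := fun z => z) (convex_halfSpace_im_lt 0)
        continuousOn_id (fun x hx => Or.inl (ne_of_lt hx)) h1 h2
    rw [← key l, ← key l']

theorem sg_piece {z : ℝ → ℂ} (hz : Dm z (Icc 0 1)) {a b : ℝ} (ha : 0 ≤ a) (hab : a ≤ b)
    (hb : b ≤ 1) (l : Fin 3) (h : ∀ τ ∈ Icc a b, Opn l (z τ)) :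
    psi z a b = (sg l (z a))⁻¹ * sg l (z b) :=
  star_class (st_Opn l) (D := Icc a b) (F := z) (convex_Icc a b)
    (hz.cont.mono (Icc_subset_Icc ha hb)) h (left_mem_Icc.2 hab) (right_mem_Icc.2 hab)

theorem core_class {z : ℝ → ℂ} (hz : Dm z (Icc 0 1)) {t : Fin 7 → ℝ} (h0 : 0 < t 0)
    (hmono : StrictMono t) (h6 : t 6 < 1)
    (p0 : 0 < (z (t 0)).im) (p1 : (z (t 1)).im < 0) (p2 : 0 < (z (t 2)).im)
    (p4 : 0 < (z (t 4)).im) (p5 : (z (t 5)).im < 0) (p6 : 0 < (z (t 6)).im)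
    (q0 : ∀ τ ∈ Icc 0 (t 0), Opn 2 (z τ)) (q1 : ∀ τ ∈ Icc (t 0) (t 1), Opn 1 (z τ))
    (q2 : ∀ τ ∈ Icc (t 1) (t 2), Opn 0 (z τ)) (q3 : ∀ τ ∈ Icc (t 2) (t 3), Opn 2 (z τ))
    (q4 : ∀ τ ∈ Icc (t 3) (t 4), Opn 2 (z τ)) (q5 : ∀ τ ∈ Icc (t 4) (t 5), Opn 0 (z τ))
    (q6 : ∀ τ ∈ Icc (t 5) (t 6), Opn 1 (z τ)) :
    psi z 0 (t 6) = (sg 2 (z 0))⁻¹ * sg 2 (z (t 6)) := by
  have m01 : t 0 < t 1 := hmono (by decide)
  have m12 : t 1 < t 2 := hmono (by decide)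
  have m23 : t 2 < t 3 := hmono (by decide)
  have m34 : t 3 < t 4 := hmono (by decide)
  have m45 : t 4 < t 5 := hmono (by decide)
  have m56 : t 5 < t 6 := hmono (by decide)
  have mem : ∀ x, 0 ≤ x → x ≤ t 6 → x ∈ Icc (0 : ℝ) 1 := fun x a b => ⟨a, by linarith⟩
  have M := mem 0 le_rfl (by linarith)
  have M0 := mem (t 0) (by linarith) (by linarith)
  have M1 := mem (t 1) (by linarith) (by linarith)
  have M2 := mem (t 2) (by linarith) (by linarith)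
  have M3 := mem (t 3) (by linarith) (by linarith)
  have M4 := mem (t 4) (by linarith) (by linarith)
  have M5 := mem (t 5) (by linarith) (by linarith)
  have M6 := mem (t 6) (by linarith) (by linarith)
  have e0 := sg_piece hz le_rfl h0.le (by linarith) 2 q0
  have e1 := sg_piece hz (by linarith) m01.le (by linarith) 1 q1
  have e2 := sg_piece hz (by linarith) m12.le (by linarith) 0 q2
  have e3 := sg_piece hz (by linarith) m23.le (by linarith) 2 q3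
  have e4 := sg_piece hz (by linarith) m34.le (by linarith) 2 q4
  have e5 := sg_piece hz (by linarith) m45.le (by linarith) 0 q5
  have e6 := sg_piece hz (by linarith) m56.le (by linarith) 1 q6
  -- from the inside
  have c24 : psi z (t 2) (t 4) = (sg 0 (z (t 2)))⁻¹ * sg 0 (z (t 4)) := by
    rw [← hz.trans M2 M3 M4, e3, e4, ← sg_half (l := 2) (l' := 0) (Or.inl ⟨p2, p4⟩)]
    group
  have c15 : psi z (t 1) (t 5) = (sg 1 (z (t 1)))⁻¹ * sg 1 (z (t 5)) := by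
    rw [← hz.trans M1 M2 M5, ← hz.trans M2 M4 M5, e2, c24, e5,
      ← sg_half (l := 0) (l' := 1) (Or.inr ⟨p1, p5⟩)]
    group
  have c06 : psi z (t 0) (t 6) = (sg 2 (z (t 0)))⁻¹ * sg 2 (z (t 6)) := by
    rw [← hz.trans M0 M1 M6, ← hz.trans M1 M5 M6, e1, c15, e6,
      ← sg_half (l := 1) (l' := 2) (Or.inl ⟨p0, p6⟩)]
    group
  rw [← hz.trans M M0 M6, e0, c06]
  group

/-! ### the passage B -/

def rl (x : ℝ) : ℂ := x

theorem dm_rl : Dm rl (Ioo 0 1) := by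
  refine ⟨convex_Ioo 0 1, ?_, ?_⟩
  · exact Complex.continuous_ofReal.continuousOn
  · intro x hx
    constructor
    · intro h
      have : x = 0 := Complex.ofReal_eq_zero.1 h
      linarith [hx.1]
    · intro h
      have : x = 1 := Complex.ofReal_eq_one.1 h
      linarith [hx.2]

theorem rl_class {x y : ℝ} (hx : x ∈ Ioo (0 : ℝ) 1) (hy : y ∈ Ioo (0 : ℝ) 1) :
    psi rl x y = (sg 2 (rl x))⁻¹ * sg 2 (rl y) := by
  refine star_class (st_Opn 2) (D := Ioo 0 1) (F := rl) (convex_Ioo 0 1) dm_rl.cont ?_ hx hy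
  intro z hz
  refine Or.inr (Or.inr (Or.inr ⟨rfl, ?_, ?_⟩))
  · show 0 < ((z : ℂ)).re
    rw [Complex.ofReal_re]; exact hz.1
  · show ((z : ℂ)).re < 1
    rw [Complex.ofReal_re]; exact hz.2

theorem pol_im (p : ℝ × ℝ) : (pol p).im = p.1 * Real.sin p.2 := by
  unfold pol
  rw [Complex.im_ofReal_mul, mul_comm I, Complex.exp_ofReal_mul_I_im]

theorem pol_class {p q : ℝ × ℝ} (hp : p ∈ Ioo (0 : ℝ) (1 / 2) ×ˢ Ioo (-Real.pi) Real.pi)
    (hq : q ∈ Ioo (0 : ℝ) (1 / 2) ×ˢ Ioo (-Real.pi) Real.pi) :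
    psi pol p q = (sg 2 (pol p))⁻¹ * sg 2 (pol q) := by
  refine star_class (st_Opn 2) (D := Ioo (0 : ℝ) (1 / 2) ×ˢ Ioo (-Real.pi) Real.pi) (F := pol)
    ((convex_Ioo _ _).prod (convex_Ioo _ _)) (dm_pol.cont.mono ?_) ?_ hp hq
  · rintro x ⟨h1, h2⟩
    exact ⟨h1, trivial⟩
  · rintro ⟨r, a⟩ ⟨h1, h2⟩
    simp only at h1 h2
    by_cases ha : a = 0
    · subst ha
      refine Or.inr (Or.inr (Or.inr ⟨rfl, ?_, ?_⟩))
      · simp [pol]; exact h1.1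
      · simp [pol]; linarith [h1.2]
    · left
      rw [pol_im]
      simp only
      refine mul_ne_zero (ne_of_gt h1.1) ?_
      rcases lt_or_gt_of_ne ha with h | h
      · exact ne_of_lt (Real.sin_neg_of_neg_of_neg_pi_lt h h2.1)
      · exact ne_of_gt (Real.sin_pos_of_pos_of_lt_pi h h2.2)

theorem coreB {z : ℝ → ℂ} (hz : Dm z (Icc 0 1)) {x : ℝ} (hx : x ∈ Ioo (0 : ℝ) 1) (hzx : z 0 = x)
    (hcore : CoreData z) {θ : ℝ → ℝ} (hθ : ContinuousOn θ (Icc 0 1))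
    (hl : ∀ τ ∈ Icc (0 : ℝ) 1, z τ = ‖z τ‖ * exp (I * θ τ)) :
    ∃ k : ℤ, psi z 0 1 = psi rl x (1 / 4) *
      psi pol (1 / 4, 0) (‖z 1‖, θ 1 - 2 * Real.pi * k) := by
  obtain ⟨t, h0, hmono, h6, p0, p1, p2, p3, p4, p5, p6, q0, q1, q2, q3, q4, q5, q6, q7⟩ := hcore
  have c := core_class hz h0 hmono h6 p0 p1 p2 p4 p5 p6 q0 q1 q2 q3 q4 q5 q6
  have ht0 : 0 < t 6 := h0.trans (hmono (by decide))
  have m6 : t 6 ∈ Icc (0 : ℝ) 1 := ⟨ht0.le, h6.le⟩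
  have m0 : (0 : ℝ) ∈ Icc (0 : ℝ) 1 := ⟨le_rfl, zero_le_one⟩
  have m1 : (1 : ℝ) ∈ Icc (0 : ℝ) 1 := ⟨zero_le_one, le_rfl⟩
  set P := z (t 6) with hP
  have hzP : Zone P := q7 _ ⟨le_rfl, h6.le⟩
  have hzn : 0 < ‖P‖ := norm_pos_iff.2 hzP.1
  have harg : arg P ∈ Ioo (-Real.pi) Real.pi :=
    ⟨neg_pi_lt_arg P, Complex.arg_lt_pi_iff.2 (Or.inr (ne_of_gt p6))⟩
  have hpol : pol (‖P‖, arg P) = P := by
    unfold pol
    simp only
    rw [mul_comm I]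
    exact Complex.norm_mul_exp_arg_mul_I P
  obtain ⟨k, hk⟩ : ∃ k : ℤ, θ (t 6) = arg P + 2 * Real.pi * k := by
    have e1 := hl (t 6) m6
    rw [← hP] at e1
    have e2 : exp (I * θ (t 6)) = exp (arg P * I) := by
      have h3 : (‖P‖ : ℂ) * exp (I * θ (t 6)) = ‖P‖ * exp (arg P * I) := by
        rw [Complex.norm_mul_exp_arg_mul_I P]; exact e1.symm
      exact mul_left_cancel₀ (by exact_mod_cast hzn.ne') h3
    obtain ⟨n, hn⟩ := Complex.exp_eq_exp_iff_exists_int.1 e2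
    refine ⟨n, ?_⟩
    have h4 : (θ (t 6) : ℂ) = arg P + 2 * Real.pi * n := by
      have h5 : I * ((θ (t 6) : ℂ) - (arg P + 2 * Real.pi * n)) = 0 := by
        rw [mul_sub, hn]; ring
      rcases mul_eq_zero.1 h5 with h | h
      · exact absurd h I_ne_zero
      · exact sub_eq_zero.1 h
    exact_mod_cast h4
  refine ⟨k, ?_⟩
  have hq : psi z (t 6) 1 = psi pol (‖P‖, arg P) (‖z 1‖, θ 1 - 2 * Real.pi * k) := by
    rw [zone_psi (D := Icc (t 6) 1) (θ := θ) (convex_Icc _ _)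
      (hz.cont.mono (Icc_subset_Icc ht0.le le_rfl)) q7 (hθ.mono (Icc_subset_Icc ht0.le le_rfl))
      (fun x hx => hl x (Icc_subset_Icc ht0.le le_rfl hx)) (left_mem_Icc.2 h6.le)
      (right_mem_Icc.2 h6.le), ← hP, hk]
    rw [← zone_shift (r := ‖P‖) (a := arg P) (r' := ‖z 1‖) (a' := θ 1 - 2 * Real.pi * k)
      ⟨⟨hzn, hzP.2⟩, trivial⟩ ⟨⟨norm_pos_iff.2 (q7 1 ⟨h6.le, le_rfl⟩).1, (q7 1 ⟨h6.le, le_rfl⟩).2⟩,
        trivial⟩ k]
    rw [sub_add_cancel]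
  have hr : psi rl x (1 / 4) = (sg 2 (rl x))⁻¹ * sg 2 (rl (1 / 4)) :=
    rl_class hx (by constructor <;> norm_num)
  have e14 : pol (1 / 4, 0) = rl (1 / 4) := by
    simp [pol, rl]
  have d14 : ((1 / 4 : ℝ), (0 : ℝ)) ∈ Ioo (0 : ℝ) (1 / 2) ×ˢ Ioo (-Real.pi) Real.pi :=
    ⟨⟨by norm_num, by norm_num⟩, ⟨neg_lt_zero.2 Real.pi_pos, Real.pi_pos⟩⟩
  have hpc : psi pol (1 / 4, 0) (‖P‖, arg P) = (sg 2 (rl (1 / 4)))⁻¹ * sg 2 P := by
    rw [pol_class d14 ⟨⟨hzn, hzP.2⟩, harg⟩, e14, hpol]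
  have e5 := dm_pol.trans (p := ((1 / 4 : ℝ), (0 : ℝ))) (q := (‖P‖, arg P))
    (r := (‖z 1‖, θ 1 - 2 * Real.pi * k)) ⟨d14.1, trivial⟩ ⟨⟨hzn, hzP.2⟩, trivial⟩
    ⟨⟨norm_pos_iff.2 (q7 1 ⟨h6.le, le_rfl⟩).1, (q7 1 ⟨h6.le, le_rfl⟩).2⟩, trivial⟩
  have hzr : z 0 = rl x := hzx
  rw [← hz.trans m0 m6 m1, c, hq, hr, ← e5, hpc, hzr]
  group

/-! ### families -/

theorem box4_convex : Convex ℝ box4 := convex_Icc _ _

theorem zero_box4 : (0 : Fin 4 → ℝ) ∈ box4 := by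
  unfold box4
  constructor
  · intro i; simp
  · intro i; simp

theorem RX_box4 {ξ : Fin 4 → ℝ} (h : ξ ∈ box4) : RX ξ ∈ box4 := by
  unfold box4 at h ⊢
  have h1 := h.1
  have h2 := h.2
  have a0 := h1 0
  have a1 := h1 1
  have a2 := h1 2
  have a3 := h1 3
  have b0 := h2 0
  have b1 := h2 1
  have b2 := h2 2
  have b3 := h2 3
  simp only [Pi.neg_apply] at a0 a1 a2 a3
  simp only [Pi.one_apply] at a0 a1 a2 a3 b0 b1 b2 b3
  unfold RX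
  constructor
  · intro i
    fin_cases i <;> simp <;> linarith
  · intro i
    fin_cases i <;> simp <;> linarith

theorem RX_zero : RX 0 = 0 := by
  unfold RX
  funext i
  fin_cases i <;> simp

theorem RX_RX (ξ : Fin 4 → ℝ) : RX (RX ξ) = ξ := by
  unfold RX
  funext i
  fin_cases i <;> simp

theorem RX_cont : Continuous RX := by
  unfold RX
  apply continuous_pi
  intro i
  fin_cases i <;> simp <;> fun_prop

section Fam

variable {h : (Fin 4 → ℝ) → ℝ → ℂ} {θ : (Fin 4 → ℝ) → ℝ → ℝ}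

/-- the cocycle of a family -/
def WW (h : (Fin 4 → ℝ) → ℝ → ℂ) (p q : (Fin 4 → ℝ) × ℝ) : GG :=
  psi (fun p : (Fin 4 → ℝ) × ℝ => h p.1 p.2) p q

theorem dm_fam (F : Fam h θ) : Dm (fun p : (Fin 4 → ℝ) × ℝ => h p.1 p.2) (box4 ×ˢ Icc 0 1) :=
  ⟨box4_convex.prod (convex_Icc 0 1), F.cont, fun p hp => F.mem p.1 hp.1 p.2 hp.2⟩

theorem fam_dm1 (F : Fam h θ) {ξ : Fin 4 → ℝ} (hξ : ξ ∈ box4) : Dm (h ξ) (Icc 0 1) :=
  (dm_fam F).dcomp (α := fun τ : ℝ => (ξ, τ)) (convex_Icc 0 1) (by fun_prop)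
    (fun τ hτ => ⟨hξ, hτ⟩)

theorem fam_slice (F : Fam h θ) {ξ : Fin 4 → ℝ} (hξ : ξ ∈ box4) :
    psi (h ξ) 0 1 = WW h (ξ, 0) (ξ, 1) :=
  (dm_fam F).comp (α := fun τ : ℝ => (ξ, τ)) (convex_Icc 0 1) (by fun_prop)
    (fun τ hτ => ⟨hξ, hτ⟩) (left_mem_Icc.2 zero_le_one) (right_mem_Icc.2 zero_le_one)

theorem fam_rev (F : Fam h θ) {ξ : Fin 4 → ℝ} (hξ : ξ ∈ box4) :
    psi (fun τ => h ξ (1 - τ)) 0 1 = WW h (ξ, 1) (ξ, 0) := by
  have := (dm_fam F).comp (α := fun τ : ℝ => (ξ, 1 - τ)) (D' := Icc (0 : ℝ) 1) (convex_Icc 0 1)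
    (by fun_prop) (fun τ hτ => ⟨hξ, by constructor <;> linarith [hτ.1, hτ.2]⟩)
    (left_mem_Icc.2 zero_le_one) (right_mem_Icc.2 zero_le_one)
  simp only [sub_zero, sub_self] at this
  exact this

theorem fam_end (F : Fam h θ) {ξ ξ' : Fin 4 → ℝ} (hξ : ξ ∈ box4) (hξ' : ξ' ∈ box4) :
    WW h (ξ, 1) (ξ', 1) = psi pol (‖h ξ 1‖, θ ξ 1) (‖h ξ' 1‖, θ ξ' 1) := by
  have o01 : (1 : ℝ) ∈ Icc (0 : ℝ) 1 := right_mem_Icc.2 zero_le_one
  have e := (dm_fam F).comp (α := fun x : Fin 4 → ℝ => (x, (1 : ℝ))) box4_convex (by fun_prop)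
    (fun x hx => ⟨hx, o01⟩) hξ hξ'
  have d := (dm_fam F).dcomp (α := fun x : Fin 4 → ℝ => (x, (1 : ℝ))) box4_convex (by fun_prop)
    (fun x hx => ⟨hx, o01⟩)
  show psi _ _ _ = _
  rw [← e]
  exact zone_psi (θ := fun x => θ x 1) box4_convex d.cont F.zone
    (F.contT.comp (f := fun x : Fin 4 → ℝ => (x, (1 : ℝ))) (by fun_prop) (fun x hx => ⟨hx, o01⟩))
    (fun x hx => F.lift x hx 1 o01) hξ hξ'

theorem fam_A (F : Fam h θ) (hR : ∀ ξ ∈ box4, h (RX ξ) 0 = h ξ 0) {ξ : Fin 4 → ℝ}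
    (hξ : ξ ∈ box4) :
    WW h (RX ξ, 1) (RX ξ, 0) * WW h (ξ, 0) (ξ, 1) =
      psi pol (‖h (RX ξ) 1‖, θ (RX ξ) 1) (‖h ξ 1‖, θ ξ 1) := by
  have z01 : (0 : ℝ) ∈ Icc (0 : ℝ) 1 := left_mem_Icc.2 zero_le_one
  have o01 : (1 : ℝ) ∈ Icc (0 : ℝ) 1 := right_mem_Icc.2 zero_le_one
  have hd := dm_fam F
  have hRξ := RX_box4 hξ
  have dk : Dm (fun x : Fin 4 → ℝ => h x 0) box4 :=
    hd.dcomp (α := fun x : Fin 4 → ℝ => (x, (0 : ℝ))) box4_convex (by fun_prop)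
      (fun x hx => ⟨hx, z01⟩)
  have e0 : WW h (RX ξ, 0) (ξ, 0) = 1 := by
    have e1 : WW h (RX ξ, 0) (ξ, 0) = psi (fun x : Fin 4 → ℝ => h x 0) (RX ξ) ξ :=
      (hd.comp (α := fun x : Fin 4 → ℝ => (x, (0 : ℝ))) box4_convex (by fun_prop)
        (fun x hx => ⟨hx, z01⟩) hRξ hξ).symm
    have e2 : psi (fun x : Fin 4 → ℝ => h x 0) ξ 0 = psi (fun x : Fin 4 → ℝ => h x 0) (RX ξ) 0 := by
      have a1 := dk.comp (α := RX) box4_convex RX_cont.continuousOn (fun x hx => RX_box4 hx)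
        hξ zero_box4
      rw [RX_zero] at a1
      rw [← a1]
      exact dk.congr (fun x hx => (hR x hx).symm) hξ zero_box4
    rw [e1, ← dk.trans hRξ zero_box4 hξ, ← e2, dk.trans hξ zero_box4 hξ, dk.refl hξ]
  rw [← fam_end F hRξ hξ]
  have t1 : WW h (RX ξ, 1) (RX ξ, 0) * WW h (RX ξ, 0) (ξ, 0) = WW h (RX ξ, 1) (ξ, 0) :=
    hd.trans ⟨hRξ, o01⟩ ⟨hRξ, z01⟩ ⟨hξ, z01⟩
  have t2 : WW h (RX ξ, 1) (ξ, 0) * WW h (ξ, 0) (ξ, 1) = WW h (RX ξ, 1) (ξ, 1) :=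
    hd.trans ⟨hRξ, o01⟩ ⟨hξ, z01⟩ ⟨hξ, o01⟩
  rw [← t2, ← t1, e0, mul_one]

theorem fam_B (F : Fam h θ) (h0 : ∀ ξ ∈ box4, ∃ x ∈ Ioo (0 : ℝ) 1, h ξ 0 = x)
    (hcore : CoreData (h 0)) :
    ∃ k : ℤ, ∀ ξ ∈ box4, ∀ x : ℝ, h ξ 0 = x → WW h (ξ, 0) (ξ, 1) =
      psi rl x (1 / 4) * psi pol (1 / 4, 0) (‖h ξ 1‖, θ ξ 1 - 2 * Real.pi * k) := by
  have z01 : (0 : ℝ) ∈ Icc (0 : ℝ) 1 := left_mem_Icc.2 zero_le_one
  have o01 : (1 : ℝ) ∈ Icc (0 : ℝ) 1 := right_mem_Icc.2 zero_le_one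
  have hd := dm_fam F
  obtain ⟨x0, hx0, hhx0⟩ := h0 0 zero_box4
  obtain ⟨k, hk⟩ := coreB (fam_dm1 F zero_box4) hx0 hhx0 hcore (θ := θ 0)
    (F.contT.comp (f := fun τ : ℝ => ((0 : Fin 4 → ℝ), τ)) (by fun_prop)
      (fun τ hτ => ⟨zero_box4, hτ⟩)) (fun τ hτ => F.lift 0 zero_box4 τ hτ)
  refine ⟨k, ?_⟩
  intro ξ hξ x hx
  have hxI : x ∈ Ioo (0 : ℝ) 1 := by
    obtain ⟨y, hy, e⟩ := h0 ξ hξ
    have : x = y := by
      have := hx.symm.trans e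
      exact_mod_cast this
    rw [this]; exact hy
  have dz : ∀ η ∈ box4, ∀ a : ℝ, (‖h η 1‖, a) ∈ DZ := fun η hη a =>
    ⟨⟨norm_pos_iff.2 (F.zone η hη).1, (F.zone η hη).2⟩, trivial⟩
  have q14 : (1 / 4 : ℝ) ∈ Ioo (0 : ℝ) 1 := by constructor <;> norm_num
  have d14 : ((1 / 4 : ℝ), (0 : ℝ)) ∈ DZ := ⟨⟨by norm_num, by norm_num⟩, trivial⟩
  have t1 : WW h (ξ, 0) (0, 0) * WW h (0, 0) (0, 1) = WW h (ξ, 0) (0, 1) :=
    hd.trans ⟨hξ, z01⟩ ⟨zero_box4, z01⟩ ⟨zero_box4, o01⟩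
  have t2 : WW h (ξ, 0) (0, 1) * WW h (0, 1) (ξ, 1) = WW h (ξ, 0) (ξ, 1) :=
    hd.trans ⟨hξ, z01⟩ ⟨zero_box4, o01⟩ ⟨hξ, o01⟩
  have e3 : WW h (0, 1) (ξ, 1) = psi pol (‖h 0 1‖, θ 0 1 - 2 * Real.pi * k)
      (‖h ξ 1‖, θ ξ 1 - 2 * Real.pi * k) := by
    rw [fam_end F zero_box4 hξ, ← zone_shift (dz 0 zero_box4 (θ 0 1 - 2 * Real.pi * k))
      (dz ξ hξ (θ ξ 1 - 2 * Real.pi * k)) k]
    rw [sub_add_cancel, sub_add_cancel]
  have e4 : WW h (ξ, 0) (0, 0) = psi rl x x0 := by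
    have e1 : WW h (ξ, 0) (0, 0) = psi (fun x : Fin 4 → ℝ => h x 0) ξ 0 :=
      (hd.comp (α := fun x : Fin 4 → ℝ => (x, (0 : ℝ))) box4_convex (by fun_prop)
        (fun x hx => ⟨hx, z01⟩) hξ zero_box4).symm
    have dk : Dm (fun x : Fin 4 → ℝ => h x 0) box4 :=
      hd.dcomp (α := fun x : Fin 4 → ℝ => (x, (0 : ℝ))) box4_convex (by fun_prop)
        (fun x hx => ⟨hx, z01⟩)
    have e5 : ∀ η ∈ box4, h η 0 = rl ((h η 0).re) := by
      intro η hη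
      obtain ⟨y, hy, e⟩ := h0 η hη
      rw [e]
      simp [rl]
    have e6 := dm_rl.comp (α := fun η : Fin 4 → ℝ => (h η 0).re) box4_convex
      (Complex.continuous_re.comp_continuousOn dk.cont) (by
        intro η hη
        obtain ⟨y, hy, e⟩ := h0 η hη
        rw [e, Complex.ofReal_re]
        exact hy) hξ zero_box4
    rw [e1, dk.congr (F' := fun η => rl ((h η 0).re)) e5 hξ zero_box4, e6, hx, hhx0,
      Complex.ofReal_re, Complex.ofReal_re]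
  rw [← t2, ← t1, e3, e4, ← fam_slice F zero_box4, hk, ← dm_rl.trans hxI hx0 q14,
    ← dm_pol.trans d14 (dz 0 zero_box4 (θ 0 1 - 2 * Real.pi * k)) (dz ξ hξ _)]
  simp only [mul_assoc]

end Fam

/-! ### the standard path -/

theorem psi01 (f : ℝ → ℂ) : psi f 0 1 = Ph f := by
  unfold psi
  congr 1
  funext t
  simp

theorem piece_psi {f : ℝ → ℂ} (hf : Dm f (Icc 0 1)) {a b : ℝ} (ha : 0 ≤ a) (hab : a ≤ b)
    (hb : b ≤ 1) : Dm (sub f a b) (Icc 0 1) ∧ psi f a b = psi (sub f a b) 0 1 := by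
  have hm : ∀ x ∈ Icc (0 : ℝ) 1, a + (b - a) * x ∈ Icc (0 : ℝ) 1 := by
    intro x hx
    have h1 : 0 ≤ (b - a) * x := mul_nonneg (by linarith) hx.1
    have h2 : (b - a) * x ≤ b - a := mul_le_of_le_one_right (by linarith) hx.2
    constructor <;> linarith
  refine ⟨hf.dcomp (α := fun x : ℝ => a + (b - a) * x) (convex_Icc 0 1) (by fun_prop) hm, ?_⟩
  have e := hf.comp (α := fun x : ℝ => a + (b - a) * x) (convex_Icc 0 1) (by fun_prop) hm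
    (left_mem_Icc.2 zero_le_one) (right_mem_Icc.2 zero_le_one)
  simp only [mul_zero, add_zero, mul_one, add_sub_cancel] at e
  exact e.symm

theorem stdA_cont (x y : ℝ) (n : ℤ) : Continuous (stdA x y n) := by
  unfold stdA
  apply Continuous.if_le (by fun_prop) ?_ continuous_id continuous_const
  · intro t ht
    have ht' : t = 1 / 3 := ht
    subst ht'
    norm_num
  · apply Continuous.if_le (by fun_prop) (by fun_prop) continuous_id continuous_const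
    intro t ht
    have ht' : t = 2 / 3 := ht
    subst ht'
    have : exp (2 * Real.pi * I * n * ((3 * (2 / 3) - 1 : ℝ) : ℂ)) = 1 := by
      rw [show 2 * (Real.pi : ℂ) * I * n * ((3 * (2 / 3) - 1 : ℝ) : ℂ) = n * (2 * Real.pi * I) by
        push_cast; ring]
      exact Complex.exp_int_mul_two_pi_mul_I n
    rw [this]
    norm_num

theorem q14 : (1 / 4 : ℝ) ∈ Ioo (0 : ℝ) 1 := by constructor <;> norm_num

theorem stdA_1 (x y : ℝ) (n : ℤ) : ∀ t ∈ Icc (0 : ℝ) 1,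
    sub (stdA x y n) 0 (1 / 3) t = rl (x + t * (1 / 4 - x)) := by
  intro t ht
  unfold sub stdA rl
  rw [if_pos (by linarith [ht.2])]
  congr 1
  ring

theorem stdA_2 (x y : ℝ) (n : ℤ) : ∀ t ∈ Icc (0 : ℝ) 1,
    sub (stdA x y n) (1 / 3) (2 / 3) t = pol (1 / 4, t * (2 * Real.pi * n)) := by
  intro t ht
  unfold sub
  rcases eq_or_lt_of_le ht.1 with h0 | h0
  · subst h0
    unfold stdA pol
    norm_num
  · unfold stdA pol
    rw [if_neg (by linarith), if_pos (by linarith [ht.2])]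
    congr 1
    · push_cast; norm_num
    · congr 1
      push_cast
      ring

theorem stdA_3 (x y : ℝ) (n : ℤ) : ∀ t ∈ Icc (0 : ℝ) 1,
    sub (stdA x y n) (2 / 3) 1 t = rl (1 / 4 + t * (y - 1 / 4)) := by
  intro t ht
  unfold sub
  rcases eq_or_lt_of_le ht.1 with h0 | h0
  · subst h0
    have := stdA_2 x y n 1 (right_mem_Icc.2 zero_le_one)
    unfold sub at this
    have e : (2 / 3 + (1 - 2 / 3) * 0 : ℝ) = 1 / 3 + (2 / 3 - 1 / 3) * 1 := by norm_num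
    rw [e, this]
    unfold pol rl
    have e2 : exp (I * ((1 * (2 * Real.pi * n) : ℝ) : ℂ)) = 1 := by
      rw [show I * ((1 * (2 * Real.pi * n) : ℝ) : ℂ) = n * (2 * Real.pi * I) by push_cast; ring]
      exact Complex.exp_int_mul_two_pi_mul_I n
    simp only
    rw [e2]
    norm_num
  · unfold stdA rl
    rw [if_neg (by linarith), if_neg (by linarith)]
    congr 1
    ring

/-- three pieces -/
theorem cover3 {t : ℝ} (ht : t ∈ Icc (0 : ℝ) 1) :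
    (∃ u ∈ Icc (0 : ℝ) 1, t = 0 + (1 / 3 - 0) * u) ∨
    (∃ u ∈ Icc (0 : ℝ) 1, t = 1 / 3 + (2 / 3 - 1 / 3) * u) ∨
    (∃ u ∈ Icc (0 : ℝ) 1, t = 2 / 3 + (1 - 2 / 3) * u) := by
  have h0 := ht.1
  have h1 := ht.2
  rcases le_total t (1 / 3) with h | h
  · left
    exact ⟨3 * t, ⟨by linarith, by linarith⟩, by ring⟩
  · right
    rcases le_total t (2 / 3) with h' | h'
    · left
      exact ⟨3 * t - 1, ⟨by linarith, by linarith⟩, by ring⟩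
    · right
      exact ⟨3 * t - 2, ⟨by linarith, by linarith⟩, by ring⟩

theorem stdA_dm {x y : ℝ} (hx : x ∈ Ioo (0 : ℝ) 1) (hy : y ∈ Ioo (0 : ℝ) 1) (n : ℤ) :
    Dm (stdA x y n) (Icc 0 1) := by
  refine ⟨convex_Icc 0 1, (stdA_cont x y n).continuousOn, ?_⟩
  intro t ht
  rcases cover3 ht with ⟨u, hu, e⟩ | ⟨u, hu, e⟩ | ⟨u, hu, e⟩
  · have := stdA_1 x y n u hu
    unfold sub at this
    rw [e, this]
    exact dm_rl.mem _ ((convex_Ioo (0 : ℝ) 1).add_smul_sub_mem hx q14 hu)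
  · have := stdA_2 x y n u hu
    unfold sub at this
    rw [e, this]
    exact dm_pol.mem _ ⟨⟨by norm_num, by norm_num⟩, trivial⟩
  · have := stdA_3 x y n u hu
    unfold sub at this
    rw [e, this]
    exact dm_rl.mem _ ((convex_Ioo (0 : ℝ) 1).add_smul_sub_mem q14 hy hu)

theorem stdA_class {x y : ℝ} (hx : x ∈ Ioo (0 : ℝ) 1) (hy : y ∈ Ioo (0 : ℝ) 1) (n : ℤ) :
    psi (stdA x y n) 0 1 =
      psi rl x (1 / 4) * psi pol (1 / 4, 0) (1 / 4, 2 * Real.pi * n) * psi rl (1 / 4) y := by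
  have z01 : (0 : ℝ) ∈ Icc (0 : ℝ) 1 := left_mem_Icc.2 zero_le_one
  have o01 : (1 : ℝ) ∈ Icc (0 : ℝ) 1 := right_mem_Icc.2 zero_le_one
  have hd := stdA_dm hx hy n
  obtain ⟨d1, p1⟩ := piece_psi hd (a := 0) (b := 1 / 3) le_rfl (by norm_num) (by norm_num)
  obtain ⟨d2, p2⟩ := piece_psi hd (a := 1 / 3) (b := 2 / 3) (by norm_num) (by norm_num)
    (by norm_num)
  obtain ⟨d3, p3⟩ := piece_psi hd (a := 2 / 3) (b := 1) (by norm_num) (by norm_num) le_rfl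
  have c1 : psi (sub (stdA x y n) 0 (1 / 3)) 0 1 = psi rl x (1 / 4) := by
    rw [d1.congr (stdA_1 x y n) z01 o01]
    have := dm_rl.comp (α := fun t : ℝ => x + t * (1 / 4 - x)) (D' := Icc (0 : ℝ) 1)
      (convex_Icc 0 1) (by fun_prop)
      (fun t ht => (convex_Ioo (0 : ℝ) 1).add_smul_sub_mem hx q14 ht) z01 o01
    rw [this]
    congr 1 <;> ring
  have c2 : psi (sub (stdA x y n) (1 / 3) (2 / 3)) 0 1 =
      psi pol (1 / 4, 0) (1 / 4, 2 * Real.pi * n) := by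
    rw [d2.congr (stdA_2 x y n) z01 o01]
    have := dm_pol.comp (α := fun t : ℝ => ((1 / 4 : ℝ), t * (2 * Real.pi * n)))
      (D' := Icc (0 : ℝ) 1) (convex_Icc 0 1) (by fun_prop)
      (fun t ht => ⟨⟨by norm_num, by norm_num⟩, trivial⟩) z01 o01
    rw [this, zero_mul, one_mul]
  have c3 : psi (sub (stdA x y n) (2 / 3) 1) 0 1 = psi rl (1 / 4) y := by
    rw [d3.congr (stdA_3 x y n) z01 o01]
    have := dm_rl.comp (α := fun t : ℝ => 1 / 4 + t * (y - 1 / 4)) (D' := Icc (0 : ℝ) 1)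
      (convex_Icc 0 1) (by fun_prop)
      (fun t ht => (convex_Ioo (0 : ℝ) 1).add_smul_sub_mem q14 hy ht) z01 o01
    rw [this]
    congr 1 <;> ring
  have m1 : (1 / 3 : ℝ) ∈ Icc (0 : ℝ) 1 := by constructor <;> norm_num
  have m2 : (2 / 3 : ℝ) ∈ Icc (0 : ℝ) 1 := by constructor <;> norm_num
  rw [← hd.trans z01 m2 o01, ← hd.trans z01 m1 m2, p1, p2, p3, c1, c2, c3]

/-! ### the block -/

theorem zonePath_psi {g : ℝ → ℂ} {x y : ℂ} {a b : ℝ} (hg : ContinuousOn g (Icc 0 1))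
    (h : ZonePath g x y a b) : Dm g (Icc 0 1) ∧ psi g 0 1 = psi pol (‖x‖, a) (‖y‖, b) := by
  obtain ⟨h0, h1, hz, θ, hθ, ha, hb, hl⟩ := h
  refine ⟨⟨convex_Icc 0 1, hg, fun x hx => zone_C01 (hz x hx)⟩, ?_⟩
  rw [zone_psi (convex_Icc 0 1) hg hz hθ hl (left_mem_Icc.2 zero_le_one)
    (right_mem_Icc.2 zero_le_one), h0, h1, ha, hb]

theorem block : BlockStmt := by
  intro hA hB θA θB FA FB hB0 hθ0 hcore hRX ξ₁ m1 ξ₂ m2 ξ₃ m3 g₁ g₂ N₁ N₂ hg₁ hg₂ f t hf t0 t6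
    hmono e1 e2 e3 e4 e5 e6
  have z01 : (0 : ℝ) ∈ Icc (0 : ℝ) 1 := left_mem_Icc.2 zero_le_one
  have o01 : (1 : ℝ) ∈ Icc (0 : ℝ) 1 := right_mem_Icc.2 zero_le_one
  have mR := RX_box4 m2
  have l0 := hmono 0 (by norm_num)
  have l1 := hmono 1 (by norm_num)
  have l2 := hmono 2 (by norm_num)
  have l3 := hmono 3 (by norm_num)
  have l4 := hmono 4 (by norm_num)
  have l5 := hmono 5 (by norm_num)
  simp only [Nat.reduceAdd, zero_add] at l0 l1 l2 l3 l4 l5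
  -- values in `C01`
  have inv : ∀ a b x : ℝ, a < b → x ∈ Icc a b → ∃ u ∈ Icc (0 : ℝ) 1, x = a + (b - a) * u := by
    intro a b x hab hx
    have hd : 0 < b - a := by linarith
    refine ⟨(x - a) / (b - a), ⟨div_nonneg (by linarith [hx.1]) hd.le,
      (div_le_one hd).2 (by linarith [hx.2])⟩, ?_⟩
    field_simp
    ring
  have flip : ∀ u ∈ Icc (0 : ℝ) 1, 1 - u ∈ Icc (0 : ℝ) 1 := by
    intro u hu
    constructor <;> linarith [hu.1, hu.2]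
  have e1' : ∀ τ ∈ Icc (0 : ℝ) 1, sub f (t 0) (t 1) τ = hB ξ₁ τ := by
    intro τ hτ
    rw [← e1 τ hτ]
    unfold sub
    rw [t0]
    congr 1
    ring
  have hfm : ∀ x ∈ Icc (0 : ℝ) 1, f x ∈ C01 := by
    intro x hx
    rcases le_total x (t 1) with h | h
    · obtain ⟨u, hu, e⟩ := inv (t 0) (t 1) x l0 ⟨by rw [t0]; exact hx.1, h⟩
      rw [e]
      have := e1' u hu
      unfold sub at this
      rw [this]
      exact FB.mem _ m1 _ hu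
    rcases le_total x (t 2) with h2 | h2
    · obtain ⟨u, hu, e⟩ := inv (t 1) (t 2) x l1 ⟨h, h2⟩
      rw [e]
      have := e2 u hu
      unfold sub at this
      rw [this]
      exact zone_C01 (hg₁.2.2.1 u hu)
    rcases le_total x (t 3) with h3 | h3
    · obtain ⟨u, hu, e⟩ := inv (t 2) (t 3) x l2 ⟨h2, h3⟩
      rw [e]
      have := e3 u hu
      unfold sub at this
      rw [this]
      exact FA.mem _ mR _ (flip u hu)
    rcases le_total x (t 4) with h4 | h4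
    · obtain ⟨u, hu, e⟩ := inv (t 3) (t 4) x l3 ⟨h3, h4⟩
      rw [e]
      have := e4 u hu
      unfold sub at this
      rw [this]
      exact FA.mem _ m2 _ hu
    rcases le_total x (t 5) with h5 | h5
    · obtain ⟨u, hu, e⟩ := inv (t 4) (t 5) x l4 ⟨h4, h5⟩
      rw [e]
      have := e5 u hu
      unfold sub at this
      rw [this]
      exact zone_C01 (hg₂.2.2.1 u hu)
    · obtain ⟨u, hu, e⟩ := inv (t 5) (t 6) x l5 ⟨h5, by rw [t6]; exact hx.2⟩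
      rw [e]
      have := e6 u hu
      unfold sub at this
      rw [this]
      exact FB.mem _ m3 _ (flip u hu)
  have hd : Dm f (Icc 0 1) := ⟨convex_Icc 0 1, hf, hfm⟩
  have T1 : t 1 ∈ Icc (0 : ℝ) 1 := ⟨by linarith, by linarith⟩
  have T2 : t 2 ∈ Icc (0 : ℝ) 1 := ⟨by linarith, by linarith⟩
  have T3 : t 3 ∈ Icc (0 : ℝ) 1 := ⟨by linarith, by linarith⟩
  have T4 : t 4 ∈ Icc (0 : ℝ) 1 := ⟨by linarith, by linarith⟩
  have T5 : t 5 ∈ Icc (0 : ℝ) 1 := ⟨by linarith, by linarith⟩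
  obtain ⟨d1, p1⟩ := piece_psi hd (a := t 0) (b := t 1) t0.ge l0.le T1.2
  obtain ⟨d2, p2⟩ := piece_psi hd (a := t 1) (b := t 2) T1.1 l1.le T2.2
  obtain ⟨d3, p3⟩ := piece_psi hd (a := t 2) (b := t 3) T2.1 l2.le T3.2
  obtain ⟨d4, p4⟩ := piece_psi hd (a := t 3) (b := t 4) T3.1 l3.le T4.2
  obtain ⟨d5, p5⟩ := piece_psi hd (a := t 4) (b := t 5) T4.1 l4.le T5.2
  obtain ⟨d6, p6⟩ := piece_psi hd (a := t 5) (b := t 6) T5.1 l5.le t6.le
  obtain ⟨k, hk⟩ := fam_B FB hB0 hcore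
  obtain ⟨x, hx, hx0⟩ := hB0 ξ₁ m1
  obtain ⟨y, hy, hy0⟩ := hB0 ξ₃ m3
  -- classes of the pieces
  have c1 : psi f (t 0) (t 1) = psi rl x (1 / 4) *
      psi pol (1 / 4, 0) (‖hB ξ₁ 1‖, θB ξ₁ 1 - 2 * Real.pi * k) := by
    rw [p1, d1.congr e1' z01 o01, fam_slice FB m1, hk ξ₁ m1 x hx0]
  have c2 : psi f (t 1) (t 2) = psi pol (‖hB ξ₁ 1‖, θB ξ₁ 1)
      (‖hA (RX ξ₂) 1‖, θA (RX ξ₂) 1 + 2 * Real.pi * N₁) := by
    have hc : ContinuousOn g₁ (Icc 0 1) := d2.cont.congr (fun τ hτ => (e2 τ hτ).symm)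
    rw [p2, d2.congr e2 z01 o01, (zonePath_psi hc hg₁).2]
  have c3 : psi f (t 2) (t 3) * psi f (t 3) (t 4) =
      psi pol (‖hA (RX ξ₂) 1‖, θA (RX ξ₂) 1) (‖hA ξ₂ 1‖, θA ξ₂ 1) := by
    rw [p3, p4, d3.congr e3 z01 o01, d4.congr e4 z01 o01, fam_rev FA mR]
    have : psi (fun τ => hA ξ₂ τ) 0 1 = WW hA (ξ₂, 0) (ξ₂, 1) := fam_slice FA m2
    rw [this]
    exact fam_A FA (fun ξ hξ => (hRX ξ hξ).1) m2
  have c5 : psi f (t 4) (t 5) = psi pol (‖hA ξ₂ 1‖, θA ξ₂ 1)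
      (‖hB ξ₃ 1‖, θB ξ₃ 1 + 2 * Real.pi * N₂) := by
    have hc : ContinuousOn g₂ (Icc 0 1) := d5.cont.congr (fun τ hτ => (e5 τ hτ).symm)
    rw [p5, d5.congr e5 z01 o01, (zonePath_psi hc hg₂).2]
  have dB := dm_fam FB
  have c6 : psi f (t 5) (t 6) = (psi rl y (1 / 4) *
      psi pol (1 / 4, 0) (‖hB ξ₃ 1‖, θB ξ₃ 1 - 2 * Real.pi * k))⁻¹ := by
    rw [p6, d6.congr e6 z01 o01, fam_rev FB m3, ← hk ξ₃ m3 y hy0]
    exact dB.symm (p := (ξ₃, (1 : ℝ))) (q := (ξ₃, (0 : ℝ))) ⟨m3, o01⟩ ⟨m3, z01⟩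
  -- shifts
  have zB : ∀ η ∈ box4, ∀ a : ℝ, (‖hB η 1‖, a) ∈ DZ := fun η hη a =>
    ⟨⟨norm_pos_iff.2 (FB.zone η hη).1, (FB.zone η hη).2⟩, trivial⟩
  have zA : ∀ η ∈ box4, ∀ a : ℝ, (‖hA η 1‖, a) ∈ DZ := fun η hη a =>
    ⟨⟨norm_pos_iff.2 (FA.zone η hη).1, (FA.zone η hη).2⟩, trivial⟩
  have z14 : ∀ a : ℝ, ((1 / 4 : ℝ), a) ∈ DZ := fun a => ⟨⟨by norm_num, by norm_num⟩, trivial⟩
  have s2 : psi pol (‖hB ξ₁ 1‖, θB ξ₁ 1) (‖hA (RX ξ₂) 1‖, θA (RX ξ₂) 1 + 2 * Real.pi * N₁) =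
      psi pol (‖hB ξ₁ 1‖, θB ξ₁ 1 - 2 * Real.pi * k)
        (‖hA (RX ξ₂) 1‖, θA (RX ξ₂) 1 + 2 * Real.pi * (N₁ - k : ℤ)) := by
    rw [← zone_shift (zB ξ₁ m1 (θB ξ₁ 1 - 2 * Real.pi * k))
      (zA (RX ξ₂) mR (θA (RX ξ₂) 1 + 2 * Real.pi * (N₁ - k : ℤ))) k]
    congr 2
    · ring
    · push_cast; ring
  have s3 : psi pol (‖hA (RX ξ₂) 1‖, θA (RX ξ₂) 1) (‖hA ξ₂ 1‖, θA ξ₂ 1) =
      psi pol (‖hA (RX ξ₂) 1‖, θA (RX ξ₂) 1 + 2 * Real.pi * (N₁ - k : ℤ))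
        (‖hA ξ₂ 1‖, θA ξ₂ 1 + 2 * Real.pi * (N₁ - k : ℤ)) :=
    (zone_shift (zA (RX ξ₂) mR _) (zA ξ₂ m2 _) (N₁ - k)).symm
  have s5 : psi pol (‖hA ξ₂ 1‖, θA ξ₂ 1) (‖hB ξ₃ 1‖, θB ξ₃ 1 + 2 * Real.pi * N₂) =
      psi pol (‖hA ξ₂ 1‖, θA ξ₂ 1 + 2 * Real.pi * (N₁ - k : ℤ))
        (‖hB ξ₃ 1‖, θB ξ₃ 1 + 2 * Real.pi * (N₁ + N₂ - k : ℤ)) := by
    rw [← zone_shift (zA ξ₂ m2 (θA ξ₂ 1)) (zB ξ₃ m3 (θB ξ₃ 1 + 2 * Real.pi * N₂)) (N₁ - k)]
    congr 2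
    push_cast; ring
  have s6 : psi pol (1 / 4, 0) (‖hB ξ₃ 1‖, θB ξ₃ 1 - 2 * Real.pi * k) =
      psi pol (1 / 4, 2 * Real.pi * (N₁ + N₂ : ℤ))
        (‖hB ξ₃ 1‖, θB ξ₃ 1 + 2 * Real.pi * (N₁ + N₂ - k : ℤ)) := by
    rw [← zone_shift (z14 0) (zB ξ₃ m3 (θB ξ₃ 1 - 2 * Real.pi * k)) (N₁ + N₂)]
    congr 2
    · ring
    · push_cast; ring
  have r1 := dm_pol.symm (z14 (2 * Real.pi * (N₁ + N₂ : ℤ)))
    (zB ξ₃ m3 (θB ξ₃ 1 + 2 * Real.pi * (N₁ + N₂ - k : ℤ)))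
  have r2 := dm_rl.symm hy q14
  have total : psi f 0 1 = psi rl x (1 / 4) *
      psi pol (1 / 4, 0) (1 / 4, 2 * Real.pi * (N₁ + N₂ : ℤ)) * psi rl (1 / 4) y := by
    have ee : psi f 0 1 = psi f (t 0) (t 1) * psi f (t 1) (t 2) *
        (psi f (t 2) (t 3) * psi f (t 3) (t 4)) * psi f (t 4) (t 5) * psi f (t 5) (t 6) := by
      rw [← mul_assoc, t0, t6, hd.trans z01 T1 T2, hd.trans z01 T2 T3, hd.trans z01 T3 T4,
        hd.trans z01 T4 T5, hd.trans z01 T5 o01]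
    rw [ee, c1, c2, c3, c5, c6, s2, s3, s5, s6, r1, r2]
    have w := dm_pol.trans (z14 0) (zB ξ₁ m1 (θB ξ₁ 1 - 2 * Real.pi * k))
      (zA (RX ξ₂) mR (θA (RX ξ₂) 1 + 2 * Real.pi * (N₁ - k : ℤ)))
    have w2 := dm_pol.trans (z14 0) (zA (RX ξ₂) mR (θA (RX ξ₂) 1 + 2 * Real.pi * (N₁ - k : ℤ)))
      (zA ξ₂ m2 (θA ξ₂ 1 + 2 * Real.pi * (N₁ - k : ℤ)))
    have w3 := dm_pol.trans (z14 0) (zA ξ₂ m2 (θA ξ₂ 1 + 2 * Real.pi * (N₁ - k : ℤ)))
      (zB ξ₃ m3 (θB ξ₃ 1 + 2 * Real.pi * (N₁ + N₂ - k : ℤ)))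
    have w4 := dm_pol.trans (z14 0) (zB ξ₃ m3 (θB ξ₃ 1 + 2 * Real.pi * (N₁ + N₂ - k : ℤ)))
      (z14 (2 * Real.pi * (N₁ + N₂ : ℤ)))
    rw [← w4, ← w3, ← w2, ← w]
    group
  have e0 : f 0 = x := by
    have := e1 0 z01
    rw [mul_zero] at this
    rw [this, hx0]
  have e01 : f 1 = y := by
    have := e6 1 o01
    unfold sub at this
    rw [mul_one, add_sub_cancel, t6, sub_self] at this
    rw [this, hy0]
  have hs := stdA_dm hx hy (N₁ + N₂)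
  have hs0 : stdA x y (N₁ + N₂) 0 = x := by
    unfold stdA
    rw [if_pos (by norm_num)]
    simp
  have hs1 : stdA x y (N₁ + N₂) 1 = y := by
    unfold stdA
    rw [if_neg (by norm_num), if_neg (by norm_num)]
    congr 1
    ring
  refine ⟨x, hx, y, hy, e0, e01, ?_⟩
  refine homR_of_Ph ⟨hf, hfm⟩ ⟨hs.cont, hs.mem⟩ (e0.trans hs0.symm) (e01.trans hs1.symm) ?_
  rw [← psi01, ← psi01, total, stdA_class hx hy]

end

end Pool.Agent.HM.H26
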