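import Pool.Agent.Helper49_HM.Top

/-!
# Path classes in the plane without `0` and `1` as a cocycle with values in a group
-/

namespace Pool.Agent.HM.H26

open Complex Set Topology

noncomputable section

instance : PathConnectedSpace C01 := by
  have h : IsPathConnected (({0, 1} : Set ℂ)ᶜ) := by
    apply Set.Countable.isPathConnected_compl_of_one_lt_rank
    · rw [Complex.rank_real_complex]; exact Cardinal.one_lt_two
    · exact (Set.toFinite _).countable
  have h2 : C01 = (({0, 1} : Set ℂ)ᶜ) := by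
    ext z
    simp [C01]
  rw [h2]
  exact isPathConnected_iff_pathConnectedSpace.1 h

/-- base point -/
def bp : C01 := ⟨2, by constructor <;> norm_num⟩

/-- the group -/
abbrev GG : Type := FundamentalGroup C01 bp

open CategoryTheory

def kap (x : C01) : FundamentalGroupoid.mk bp ⟶ FundamentalGroupoid.mk x :=
  Path.Homotopic.Quotient.mk (PathConnectedSpace.somePath bp x)

def mor {x y : C01} (γ : Path x y) : FundamentalGroupoid.mk x ⟶ FundamentalGroupoid.mk y :=
  Path.Homotopic.Quotient.mk γ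

theorem mor_trans {x y z : C01} (γ : Path x y) (δ : Path y z) :
    mor (γ.trans δ) = mor γ ≫ mor δ := rfl

theorem mor_refl (x : C01) : mor (Path.refl x) = 𝟙 _ := rfl

/-- class of a path -/
def pc {x y : C01} (γ : Path x y) : GG :=
  kap y ≫ Groupoid.inv (mor γ) ≫ Groupoid.inv (kap x)

theorem pc_trans {x y z : C01} (γ : Path x y) (δ : Path y z) : pc (γ.trans δ) = pc γ * pc δ := by
  rw [End.mul_def]
  unfold pc
  rw [mor_trans]
  simp

theorem pc_refl (x : C01) : pc (Path.refl x) = 1 := by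
  rw [End.one_def]
  unfold pc
  rw [mor_refl]
  simp

theorem pc_congr {x y : C01} {γ δ : Path x y} (h : γ.Homotopic δ) : pc γ = pc δ := by
  unfold pc mor
  rw [Path.Homotopic.Quotient.eq.2 h]

theorem pc_inj {x y : C01} {γ δ : Path x y} (h : pc γ = pc δ) : γ.Homotopic δ := by
  unfold pc at h
  have h2 : mor γ = mor δ := by
    have h3 := congrArg (fun u => Groupoid.inv (kap y) ≫ u ≫ kap x) h
    have h4 : Groupoid.inv (mor γ) = Groupoid.inv (mor δ) := by simpa using h3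
    have h5 := congrArg (fun u => Groupoid.inv u) h4
    simpa using h5
  exact Path.Homotopic.Quotient.eq.1 h2

theorem pc_cast {x y x' y' : C01} (γ : Path x y) (hx : x' = x) (hy : y' = y) :
    pc (γ.cast hx hy) = pc γ := by
  subst hx hy
  rfl

/-- paths in the plane without `0` and `1` -/
def Pth (f : ℝ → ℂ) : Prop := ContinuousOn f (Icc 0 1) ∧ ∀ t ∈ Icc (0 : ℝ) 1, f t ∈ C01

def mkP (f : ℝ → ℂ) (h : Pth f) :
    Path (⟨f 0, h.2 0 (left_mem_Icc.2 zero_le_one)⟩ : C01)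
      (⟨f 1, h.2 1 (right_mem_Icc.2 zero_le_one)⟩ : C01) where
  toFun t := ⟨f t, h.2 t t.2⟩
  continuous_toFun := by
    apply Continuous.subtype_mk
    exact h.1.comp_continuous continuous_subtype_val (fun t => t.2)
  source' := by simp
  target' := by simp

/-- the path `g` with the end points of `f` -/
def mkC (f g : ℝ → ℂ) (hf : Pth f) (hg : Pth g) (h0 : f 0 = g 0) (h1 : f 1 = g 1) :
    Path (⟨f 0, hf.2 0 (left_mem_Icc.2 zero_le_one)⟩ : C01)
      (⟨f 1, hf.2 1 (right_mem_Icc.2 zero_le_one)⟩ : C01) :=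
  (mkP g hg).cast (Subtype.ext h0) (Subtype.ext h1)

theorem pc_mkC (f g : ℝ → ℂ) (hf : Pth f) (hg : Pth g) (h0 : f 0 = g 0) (h1 : f 1 = g 1) :
    pc (mkC f g hf hg h0 h1) = pc (mkP g hg) := pc_cast _ _ _

open Classical in
/-- class of a path (the value is irrelevant for other functions) -/
def Ph (f : ℝ → ℂ) : GG := if h : Pth f then pc (mkP f h) else 1

theorem Ph_eq {f : ℝ → ℂ} (h : Pth f) : Ph f = pc (mkP f h) := by
  unfold Ph
  rw [dif_pos h]

theorem Ph_congr {f g : ℝ → ℂ} (hf : Pth f) (h : ∀ t ∈ Icc (0 : ℝ) 1, f t = g t) :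
    Pth g ∧ Ph f = Ph g := by
  have hg : Pth g := ⟨hf.1.congr (fun t ht => (h t ht).symm), fun t ht => h t ht ▸ hf.2 t ht⟩
  refine ⟨hg, ?_⟩
  rw [Ph_eq hf, Ph_eq hg]
  have e0 := h 0 (left_mem_Icc.2 zero_le_one)
  have e1 := h 1 (right_mem_Icc.2 zero_le_one)
  have : mkP f hf = (mkP g hg).cast (Subtype.ext e0) (Subtype.ext e1) := by
    ext t
    exact h t t.2
  rw [this, pc_cast]

/-- splitting in the middle -/
theorem Ph_split {f : ℝ → ℂ} (hf : Pth f) :
    Ph f = Ph (fun t => f (t / 2)) * Ph (fun t => f ((1 + t) / 2)) := by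
  have h1 : Pth (fun t => f (t / 2)) := by
    have m : MapsTo (fun t : ℝ => t / 2) (Icc 0 1) (Icc 0 1) := by
      intro t ht
      constructor <;> linarith [ht.1, ht.2]
    exact ⟨hf.1.comp (by fun_prop) m, fun t ht => hf.2 _ (m ht)⟩
  have h2 : Pth (fun t => f ((1 + t) / 2)) := by
    have m : MapsTo (fun t : ℝ => (1 + t) / 2) (Icc 0 1) (Icc 0 1) := by
      intro t ht
      constructor <;> linarith [ht.1, ht.2]
    exact ⟨hf.1.comp (by fun_prop) m, fun t ht => hf.2 _ (m ht)⟩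
  rw [Ph_eq hf, Ph_eq h1, Ph_eq h2]
  have e0 : f 0 = f (0 / 2) := by norm_num
  have e1 : f (1 / 2) = f ((1 + 0) / 2) := by norm_num
  have e2 : f 1 = f ((1 + 1) / 2) := by norm_num
  have : mkP f hf = ((mkP _ h1).trans ((mkP _ h2).cast (Subtype.ext e1) rfl)).cast
      (Subtype.ext e0) (Subtype.ext e2) := by
    ext t
    simp only [Path.cast_coe, Path.trans_apply]
    split_ifs with ht
    · show f t = f ((2 * t : ℝ) / 2)
      congr 1
      ring
    · show f t = f ((1 + (2 * t - 1 : ℝ)) / 2)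
      congr 1
      ring
  rw [this, pc_cast, pc_trans, pc_cast]

/-- homotopy relative to the end points -/
theorem Ph_homot {H : ℝ × ℝ → ℂ} (hc : ContinuousOn H (Icc 0 1 ×ˢ Icc 0 1))
    (hm : ∀ s ∈ Icc (0 : ℝ) 1, ∀ t ∈ Icc (0 : ℝ) 1, H (s, t) ∈ C01)
    (h0 : ∀ s ∈ Icc (0 : ℝ) 1, H (s, 0) = H (0, 0)) (h1 : ∀ s ∈ Icc (0 : ℝ) 1, H (s, 1) = H (0, 1)) :
    Ph (fun t => H (0, t)) = Ph (fun t => H (1, t)) := by
  have z01 : (0 : ℝ) ∈ Icc (0 : ℝ) 1 := left_mem_Icc.2 zero_le_one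
  have o01 : (1 : ℝ) ∈ Icc (0 : ℝ) 1 := right_mem_Icc.2 zero_le_one
  have hs : ∀ s ∈ Icc (0 : ℝ) 1, Pth (fun t => H (s, t)) := by
    intro s hs
    refine ⟨hc.comp (by fun_prop) (fun t ht => ⟨hs, ht⟩), fun t ht => hm s hs t ht⟩
  rw [Ph_eq (hs 0 z01), Ph_eq (hs 1 o01)]
  have e0 : H (0, 0) = H (1, 0) := (h0 1 o01).symm
  have e1 : H (0, 1) = H (1, 1) := (h1 1 o01).symm
  rw [← pc_mkC _ _ (hs 0 z01) (hs 1 o01) e0 e1]
  apply pc_congr
  refine ⟨⟨⟨⟨fun p => ⟨H (p.1, p.2), hm _ p.1.2 _ p.2.2⟩, ?_⟩, ?_, ?_⟩, ?_⟩⟩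
  · apply Continuous.subtype_mk
    exact hc.comp_continuous (by fun_prop) (fun p => ⟨p.1.2, p.2.2⟩)
  · intro t
    rfl
  · intro t
    rfl
  · intro s t ht
    rcases ht with ht | ht
    · subst ht
      apply Subtype.ext
      exact h0 s s.2
    · have ht' : t = 1 := ht
      subst ht'
      apply Subtype.ext
      exact h1 s s.2

/-- equal classes: homotopic -/
theorem homR_of_Ph {f g : ℝ → ℂ} (hf : Pth f) (hg : Pth g) (h0 : f 0 = g 0) (h1 : f 1 = g 1)
    (h : Ph f = Ph g) : HomR f g := by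
  rw [Ph_eq hf, Ph_eq hg, ← pc_mkC f g hf hg h0 h1] at h
  obtain ⟨F⟩ := pc_inj h
  refine ⟨fun p => (F (projIcc 0 1 zero_le_one p.1, projIcc 0 1 zero_le_one p.2) : ℂ), ?_, ?_, ?_,
    ?_⟩
  · apply Continuous.continuousOn
    have := F.continuous
    have c := continuous_projIcc (a := (0 : ℝ)) (b := 1) (h := zero_le_one)
    fun_prop
  · intro s _ t _
    exact (F _).2
  · intro t ht
    constructor
    · show (F (projIcc 0 1 zero_le_one 0, projIcc 0 1 zero_le_one t) : ℂ) = f t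
      rw [projIcc_left, projIcc_of_mem _ ht]
      have := F.apply_zero ⟨t, ht⟩
      have h2 : (F ((0 : unitInterval), ⟨t, ht⟩) : ℂ) = f t := by
        rw [this]; rfl
      exact h2
    · show (F (projIcc 0 1 zero_le_one 1, projIcc 0 1 zero_le_one t) : ℂ) = g t
      rw [projIcc_right, projIcc_of_mem _ ht]
      have := F.apply_one ⟨t, ht⟩
      have h2 : (F ((1 : unitInterval), ⟨t, ht⟩) : ℂ) = g t := by
        rw [this]; rfl
      exact h2
  · intro s hs
    constructor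
    · show (F (projIcc 0 1 zero_le_one s, projIcc 0 1 zero_le_one 0) : ℂ) = f 0
      rw [projIcc_left]
      have := F.source (projIcc 0 1 zero_le_one s)
      have h2 : (F (projIcc 0 1 zero_le_one s, (0 : unitInterval)) : ℂ) = f 0 := by
        rw [this]
      exact h2
    · show (F (projIcc 0 1 zero_le_one s, projIcc 0 1 zero_le_one 1) : ℂ) = f 1
      rw [projIcc_right]
      have := F.target (projIcc 0 1 zero_le_one s)
      have h2 : (F (projIcc 0 1 zero_le_one s, (1 : unitInterval)) : ℂ) = f 1 := by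
        rw [this]
      exact h2

/-! ### the cocycle of a map on a convex set -/

section Coc

variable {E E' : Type*} [NormedAddCommGroup E] [NormedSpace ℝ E] [NormedAddCommGroup E']
  [NormedSpace ℝ E']

/-- class of the image of a segment -/
def psi (F : E → ℂ) (p q : E) : GG := Ph (fun t => F (p + t • (q - p)))

/-- continuous map from a convex set to the plane without `0` and `1` -/
structure Dm (F : E → ℂ) (D : Set E) : Prop where
  conv : Convex ℝ D
  cont : ContinuousOn F D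
  mem : ∀ p ∈ D, F p ∈ C01

variable {F F' : E → ℂ} {D : Set E} {p q r : E}

theorem Dm.pth (h : Dm F D) {α : ℝ → E} (hα : ContinuousOn α (Icc 0 1))
    (hm : ∀ t ∈ Icc (0 : ℝ) 1, α t ∈ D) : Pth (fun t => F (α t)) :=
  ⟨h.cont.comp hα hm, fun t ht => h.mem _ (hm t ht)⟩

theorem Dm.path (h : Dm F D) {α : ℝ → E} (hα : ContinuousOn α (Icc 0 1))
    (hm : ∀ t ∈ Icc (0 : ℝ) 1, α t ∈ D) : Ph (fun t => F (α t)) = psi F (α 0) (α 1) := by
  have z01 : (0 : ℝ) ∈ Icc (0 : ℝ) 1 := left_mem_Icc.2 zero_le_one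
  have o01 : (1 : ℝ) ∈ Icc (0 : ℝ) 1 := right_mem_Icc.2 zero_le_one
  have hb : ∀ t ∈ Icc (0 : ℝ) 1, α 0 + t • (α 1 - α 0) ∈ D := fun t ht =>
    h.conv.add_smul_sub_mem (hm 0 z01) (hm 1 o01) ht
  have hH : ∀ s ∈ Icc (0 : ℝ) 1, ∀ t ∈ Icc (0 : ℝ) 1,
      α t + s • ((α 0 + t • (α 1 - α 0)) - α t) ∈ D := fun s hs t ht =>
    h.conv.add_smul_sub_mem (hm t ht) (hb t ht) hs
  have key := Ph_homot (H := fun p : ℝ × ℝ =>
    F (α p.2 + p.1 • ((α 0 + p.2 • (α 1 - α 0)) - α p.2))) ?_ ?_ ?_ ?_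
  · simp only [zero_smul, add_zero, one_smul, add_sub_cancel] at key
    exact key
  · apply h.cont.comp
    · have hα2 : ContinuousOn (fun p : ℝ × ℝ => α p.2) (Icc 0 1 ×ˢ Icc 0 1) :=
        hα.comp continuousOn_snd (fun p hp => hp.2)
      exact hα2.add (continuousOn_fst.smul
        ((continuousOn_const.add (continuousOn_snd.smul continuousOn_const)).sub hα2))
    · rintro ⟨s, t⟩ ⟨hs, ht⟩
      exact hH s hs t ht
  · intro s hs t ht
    exact h.mem _ (hH s hs t ht)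
  · intro s hs
    simp
  · intro s hs
    simp

theorem Dm.trans (h : Dm F D) (hp : p ∈ D) (hq : q ∈ D) (hr : r ∈ D) :
    psi F p q * psi F q r = psi F p r := by
  set α : ℝ → E := fun t => if t ≤ 1 / 2 then p + (2 * t) • (q - p) else q + (2 * t - 1) • (r - q)
    with hα
  have hc : ContinuousOn α (Icc 0 1) := by
    apply Continuous.continuousOn
    rw [hα]
    apply Continuous.if_le (by fun_prop) (by fun_prop) continuous_id continuous_const
    intro t ht
    have ht' : t = 1 / 2 := ht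
    subst ht'
    norm_num
  have hm : ∀ t ∈ Icc (0 : ℝ) 1, α t ∈ D := by
    intro t ht
    rw [hα]
    simp only
    split_ifs with h1
    · exact h.conv.add_smul_sub_mem hp hq ⟨by linarith [ht.1], by linarith⟩
    · exact h.conv.add_smul_sub_mem hq hr ⟨by linarith, by linarith [ht.2]⟩
  have hP := h.pth hc hm
  have e := h.path hc hm
  have e0 : α 0 = p := by simp [hα]
  have e1 : α 1 = r := by
    rw [hα]
    norm_num
  rw [e0, e1] at e
  rw [← e, Ph_split hP]
  have m1 : MapsTo (fun t : ℝ => t / 2) (Icc 0 1) (Icc 0 1) := by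
    intro t ht
    constructor <;> linarith [ht.1, ht.2]
  have m2 : MapsTo (fun t : ℝ => (1 + t) / 2) (Icc 0 1) (Icc 0 1) := by
    intro t ht
    constructor <;> linarith [ht.1, ht.2]
  have h1 : Pth (fun t => F (α (t / 2))) :=
    ⟨hP.1.comp (f := fun t : ℝ => t / 2) (by fun_prop) m1, fun t ht => hP.2 _ (m1 ht)⟩
  have h2 : Pth (fun t => F (α ((1 + t) / 2))) :=
    ⟨hP.1.comp (f := fun t : ℝ => (1 + t) / 2) (by fun_prop) m2, fun t ht => hP.2 _ (m2 ht)⟩
  congr 1
  · refine (Ph_congr h1 ?_).2.symm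
    intro t ht
    have : t / 2 ≤ 1 / 2 := by linarith [ht.2]
    simp only [hα, if_pos this]
    congr 3
    ring
  · refine (Ph_congr h2 ?_).2.symm
    intro t ht
    rcases eq_or_lt_of_le ht.1 with h0 | h0
    · subst h0
      simp [hα]
    · have : ¬ ((1 + t) / 2 ≤ 1 / 2) := by linarith
      simp only [hα, if_neg this]
      congr 3
      ring

theorem Dm.refl (h : Dm F D) (hp : p ∈ D) : psi F p p = 1 := by
  have := h.trans hp hp hp
  exact mul_eq_left.1 this

theorem Dm.symm (h : Dm F D) (hp : p ∈ D) (hq : q ∈ D) : psi F p q = (psi F q p)⁻¹ := by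
  have := h.trans hp hq hp
  rw [h.refl hp] at this
  exact eq_inv_of_mul_eq_one_left this

theorem Dm.comp (h : Dm F D) {α : E' → E} {D' : Set E'} (hD : Convex ℝ D')
    (hα : ContinuousOn α D') (hm : ∀ x ∈ D', α x ∈ D) {p q : E'} (hp : p ∈ D') (hq : q ∈ D') :
    psi (fun x => F (α x)) p q = psi F (α p) (α q) := by
  have e := h.path (α := fun t : ℝ => α (p + t • (q - p))) ?_ ?_
  · simp only [zero_smul, add_zero, one_smul, add_sub_cancel] at e
    exact e
  · exact hα.comp (by fun_prop) (fun t ht => hD.add_smul_sub_mem hp hq ht)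
  · intro t ht
    exact hm _ (hD.add_smul_sub_mem hp hq ht)

theorem Dm.dcomp (h : Dm F D) {α : E' → E} {D' : Set E'} (hD : Convex ℝ D')
    (hα : ContinuousOn α D') (hm : ∀ x ∈ D', α x ∈ D) : Dm (fun x => F (α x)) D' :=
  ⟨hD, h.cont.comp hα hm, fun x hx => h.mem _ (hm x hx)⟩

theorem Dm.dcongr (h : Dm F D) (e : ∀ x ∈ D, F x = F' x) : Dm F' D :=
  ⟨h.conv, h.cont.congr (fun x hx => (e x hx).symm), fun x hx => e x hx ▸ h.mem x hx⟩

theorem Dm.congr (h : Dm F D) (e : ∀ x ∈ D, F x = F' x) (hp : p ∈ D) (hq : q ∈ D) :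
    psi F p q = psi F' p q := by
  unfold psi
  have h1 : Pth (fun t : ℝ => F (p + t • (q - p))) :=
    h.pth (by fun_prop) (fun t ht => h.conv.add_smul_sub_mem hp hq ht)
  exact (Ph_congr h1 (fun t ht => e _ (h.conv.add_smul_sub_mem hp hq ht))).2

/-- star-shaped subsets -/
structure St (S : Set ℂ) (c : ℂ) : Prop where
  star : ∀ z ∈ S, ∀ t ∈ Icc (0 : ℝ) 1, c + t • (z - c) ∈ S
  sub : ∀ z ∈ S, z ∈ C01

theorem star_class {S : Set ℂ} {c : ℂ} (hS : St S c) (hD : Convex ℝ D) (hF : ContinuousOn F D)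
    (hm : ∀ x ∈ D, F x ∈ S) (hp : p ∈ D) (hq : q ∈ D) :
    psi F p q = (psi (fun z : ℂ => z) c (F p))⁻¹ * psi (fun z : ℂ => z) c (F q) := by
  have z01 : (0 : ℝ) ∈ Icc (0 : ℝ) 1 := left_mem_Icc.2 zero_le_one
  have o01 : (1 : ℝ) ∈ Icc (0 : ℝ) 1 := right_mem_Icc.2 zero_le_one
  set G : E × ℝ → ℂ := fun x => c + x.2 • (F x.1 - c) with hG
  have hdG : Dm G (D ×ˢ Icc (0 : ℝ) 1) := by
    refine ⟨hD.prod (convex_Icc 0 1), ?_, ?_⟩
    · have : ContinuousOn (fun x : E × ℝ => F x.1) (D ×ˢ Icc (0 : ℝ) 1) :=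
        hF.comp continuousOn_fst (fun x hx => hx.1)
      exact continuousOn_const.add (continuousOn_snd.smul (this.sub continuousOn_const))
    · rintro ⟨x, t⟩ ⟨hx, ht⟩
      exact hS.sub _ (hS.star _ (hm x hx) t ht)
  have a1 : psi F p q = psi G (p, 1) (q, 1) := by
    rw [← hdG.comp (α := fun x : E => (x, (1 : ℝ))) hD (by fun_prop) (fun x hx => ⟨hx, o01⟩) hp hq]
    congr 1
    funext x
    simp [hG]
  have a0 : psi G (p, 0) (q, 0) = 1 := by
    have hd := hdG.dcomp (α := fun x : E => (x, (0 : ℝ))) hD (by fun_prop) (fun x hx => ⟨hx, z01⟩)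
    rw [← hdG.comp (α := fun x : E => (x, (0 : ℝ))) hD (by fun_prop) (fun x hx => ⟨hx, z01⟩) hp hq]
    rw [← hd.refl hp]
    unfold psi
    congr 1
    funext t
    simp [hG]
  have av : ∀ x ∈ D, psi G (x, 0) (x, 1) = psi (fun z : ℂ => z) c (F x) := by
    intro x hx
    unfold psi
    congr 1
    funext t
    simp [hG]
  have t1 := hdG.trans (p := (p, (1 : ℝ))) (q := (p, (0 : ℝ))) (r := (q, (0 : ℝ))) ⟨hp, o01⟩
    ⟨hp, z01⟩ ⟨hq, z01⟩
  have t2 := hdG.trans (p := (p, (1 : ℝ))) (q := (q, (0 : ℝ))) (r := (q, (1 : ℝ))) ⟨hp, o01⟩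
    ⟨hq, z01⟩ ⟨hq, o01⟩
  have t3 := hdG.symm (p := (p, (1 : ℝ))) (q := (p, (0 : ℝ))) ⟨hp, o01⟩ ⟨hp, z01⟩
  rw [a1, ← t2, ← t1, a0, t3, av p hp, av q hq, mul_one]

end Coc

end

end Pool.Agent.HM.H26
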