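import Pool.Agent.Helper49_HM.MirS
import Pool.Agent.Helper26_HM.Block

/-!
# Final assembly
-/

namespace Pool.Agent.HM.H26

open Complex Set Topology

noncomputable section

theorem disc_zero {E : Type} [NormedAddCommGroup E] [NormedSpace ℝ E] {K : Set E}
    (hK : IsPreconnected K) {g : E → ℝ} (hg : ContinuousOn g K)
    (hv : ∀ x ∈ K, ∃ n : ℤ, g x = 2 * Real.pi * n) {x₀ : E} (h0 : x₀ ∈ K) (hg0 : g x₀ = 0) :
    ∀ x ∈ K, g x = 0 := by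
  intro x hx
  obtain ⟨n, hn⟩ := hv x hx
  have hpi := Real.pi_pos
  rcases lt_trichotomy n 0 with h | h | h
  · exfalso
    have h1 : (n : ℝ) ≤ -1 := by exact_mod_cast (show n ≤ -1 by omega)
    obtain ⟨y, hy, hgy⟩ := hK.intermediate_value hx h0 hg
      (show -Real.pi ∈ Icc (g x) (g x₀) from ⟨by rw [hn]; nlinarith, by rw [hg0]; linarith⟩)
    obtain ⟨k, hk⟩ := hv y hy
    rw [hk] at hgy
    have h2 : (2 * k : ℝ) = -1 := by
      have : Real.pi * (2 * k + 1) = 0 := by linarith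
      rcases mul_eq_zero.1 this with h | h
      · exact absurd h hpi.ne'
      · linarith
    have h3 : 2 * k = -1 := by exact_mod_cast h2
    omega
  · rw [hn, h]
    simp
  · exfalso
    have h1 : (1 : ℝ) ≤ n := by exact_mod_cast (show 1 ≤ n by omega)
    obtain ⟨y, hy, hgy⟩ := hK.intermediate_value h0 hx hg
      (show Real.pi ∈ Icc (g x₀) (g x) from ⟨by rw [hg0]; linarith, by rw [hn]; nlinarith⟩)
    obtain ⟨k, hk⟩ := hv y hy
    rw [hk] at hgy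
    have h2 : (2 * k : ℝ) = 1 := by
      have : Real.pi * (2 * k - 1) = 0 := by linarith
      rcases mul_eq_zero.1 this with h | h
      · exact absurd h hpi.ne'
      · linarith
    have h3 : 2 * k = 1 := by exact_mod_cast h2
    omega

theorem arg_diff {r : ℝ} (hr : r ≠ 0) {a b : ℝ}
    (h : (r : ℂ) * exp (I * a) = r * exp (I * b)) : ∃ n : ℤ, a - b = 2 * Real.pi * n := by
  have e2 : exp (I * a) = exp (I * b) := mul_left_cancel₀ (by exact_mod_cast hr) h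
  obtain ⟨n, hn⟩ := Complex.exp_eq_exp_iff_exists_int.1 e2
  refine ⟨n, ?_⟩
  have h4 : (a : ℂ) = b + 2 * Real.pi * n := by
    have h5 : I * ((a : ℂ) - (b + 2 * Real.pi * n)) = 0 := by
      rw [mul_sub, hn]; ring
    rcases mul_eq_zero.1 h5 with h | h
    · exact absurd h I_ne_zero
    · exact sub_eq_zero.1 h
  have h6 : a = b + 2 * Real.pi * n := by exact_mod_cast h4
  linarith

theorem zc_mem {m : Fin 3 → ℝ} (hm : ∀ i, 0 < m i) {X : JS} (h : Free m X) : zc m X ∈ C01 := by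
  have hw : (w0 m : ℂ) = 1 - (w1 m : ℂ) := by
    have : w0 m = 1 - w1 m := by
      unfold w0 w1
      have := hm 0
      have := hm 1
      field_simp
      ring
    rw [this]
    push_cast
    ring
  constructor
  · exact div_ne_zero h.1 h.2.1
  · intro h1
    have h2 : X.1 = vA m X.1 X.2.1 := by
      unfold zc at h1
      exact (div_eq_one_iff_eq h.2.1).1 h1
    apply h.2.2
    unfold vB
    unfold vA at h2
    rw [hw]
    linear_combination -h2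

theorem zc_zone {m : Fin 3 → ℝ} (hm : ∀ i, 0 < m i) {X : JS} (h : Free m X)
    (h1 : 24 ≤ ‖X.2.1‖) (h2 : ‖X.1‖ ≤ 2) : Zone (zc m X) := by
  refine ⟨div_ne_zero h.1 h.2.1, ?_⟩
  have hw0 : 0 ≤ w1 m := by
    unfold w1
    have := hm 0
    have := hm 1
    positivity
  have hw1 : w1 m ≤ 1 := by
    unfold w1
    have h0 := hm 0
    have h1 := hm 1
    rw [div_le_one (by linarith)]
    linarith
  have hv : 22 ≤ ‖vA m X.1 X.2.1‖ := by
    have e : X.2.1 = vA m X.1 X.2.1 - (w1 m : ℂ) * X.1 := by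
      unfold vA; ring
    have h3 : ‖X.2.1‖ ≤ ‖vA m X.1 X.2.1‖ + ‖(w1 m : ℂ) * X.1‖ := by
      conv_lhs => rw [e]
      exact norm_sub_le _ _
    have h4 : ‖(w1 m : ℂ) * X.1‖ ≤ 2 := by
      rw [norm_mul, Complex.norm_real, Real.norm_of_nonneg hw0]
      nlinarith [norm_nonneg X.1]
    linarith
  unfold zc
  rw [norm_div, div_lt_iff₀ (by linarith)]
  linarith

theorem box_compact : IsCompact (box4 ×ˢ Icc (0 : ℝ) 1) := by
  unfold box4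
  exact isCompact_Icc.prod isCompact_Icc

theorem zc_rev (m : Fin 3 → ℝ) (X : JS) : zc m (rev X) = zc m X := rfl

theorem fam_exists (hL : LiftStmt) {m : Fin 3 → ℝ} (hm : ∀ i, 0 < m i)
    {P : (Fin 4 → ℝ) → ℝ → JS}
    (hc : ContinuousOn (fun p : (Fin 4 → ℝ) × ℝ => P p.1 p.2) (box4 ×ˢ Icc 0 1))
    (hf : ∀ ξ ∈ box4, ∀ τ ∈ Icc (0 : ℝ) 1, Free m (P ξ τ))
    (hR : ∀ ξ ∈ box4, 24 ≤ ‖(P ξ 1).2.1‖) (hX : ∀ ξ ∈ box4, ‖(P ξ 1).1‖ ≤ 2) {θ₀ : ℝ}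
    (h0 : zc m (P 0 0) = ‖zc m (P 0 0)‖ * exp (I * θ₀)) :
    ∃ θ : (Fin 4 → ℝ) → ℝ → ℝ, Fam (fun ξ τ => zc m (P ξ τ)) θ ∧ θ 0 0 = θ₀ := by
  have z01 : (0 : ℝ) ∈ Icc (0 : ℝ) 1 := left_mem_Icc.2 zero_le_one
  have o01 : (1 : ℝ) ∈ Icc (0 : ℝ) 1 := right_mem_Icc.2 zero_le_one
  have hzc : ContinuousOn (fun p : (Fin 4 → ℝ) × ℝ => zc m (P p.1 p.2)) (box4 ×ˢ Icc 0 1) := by
    unfold zc vA
    have c1 : ContinuousOn (fun p : (Fin 4 → ℝ) × ℝ => (P p.1 p.2).1) (box4 ×ˢ Icc 0 1) :=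
      continuous_fst.comp_continuousOn hc
    have c2 : ContinuousOn (fun p : (Fin 4 → ℝ) × ℝ => (P p.1 p.2).2.1) (box4 ×ˢ Icc 0 1) :=
      (continuous_fst.comp continuous_snd).comp_continuousOn hc
    refine c1.div (c2.add (continuousOn_const.mul c1)) ?_
    intro p hp
    exact (hf p.1 hp.1 p.2 hp.2).2.1
  have hmem : ∀ ξ ∈ box4, ∀ τ ∈ Icc (0 : ℝ) 1, zc m (P ξ τ) ∈ C01 := fun ξ hξ τ hτ =>
    zc_mem hm (hf ξ hξ τ hτ)
  obtain ⟨θ, hθ, hθ0, hl⟩ := hL ((Fin 4 → ℝ) × ℝ) (box4 ×ˢ Icc (0 : ℝ) 1)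
    (box4_convex.prod (convex_Icc 0 1)) box_compact (fun p => zc m (P p.1 p.2)) hzc
    (fun p hp => (hmem p.1 hp.1 p.2 hp.2).1) (0, 0) ⟨zero_box4, z01⟩ θ₀ h0
  exact ⟨fun ξ τ => θ (ξ, τ), ⟨hzc, hmem,
    fun ξ hξ => zc_zone hm (hf ξ hξ 1 o01) (hR ξ hξ) (hX ξ hξ), hθ,
    fun ξ hξ τ hτ => hl (ξ, τ) ⟨hξ, hτ⟩⟩, hθ0⟩

theorem box_pre : IsPreconnected box4 := box4_convex.isPreconnected

/-- two slices of the argument along equal values -/
theorem slice_eq {h : (Fin 4 → ℝ) → ℝ → ℂ} {θ : (Fin 4 → ℝ) → ℝ → ℝ} (F : Fam h θ)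
    (hR : ∀ ξ ∈ box4, h (RX ξ) 0 = h ξ 0) : ∀ ξ ∈ box4, θ (RX ξ) 0 = θ ξ 0 := by
  have z01 : (0 : ℝ) ∈ Icc (0 : ℝ) 1 := left_mem_Icc.2 zero_le_one
  have c1 : ContinuousOn (fun ξ : Fin 4 → ℝ => θ ξ 0) box4 :=
    F.contT.comp (f := fun ξ : Fin 4 → ℝ => (ξ, (0 : ℝ))) (by fun_prop) (fun x hx => ⟨hx, z01⟩)
  have c2 : ContinuousOn (fun ξ : Fin 4 → ℝ => θ (RX ξ) 0) box4 :=
    c1.comp RX_cont.continuousOn (fun x hx => RX_box4 hx)
  have key := disc_zero box_pre (c2.sub c1) ?_ zero_box4 (by simp [RX_zero])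
  · intro ξ hξ
    have : θ (RX ξ) 0 - θ ξ 0 = 0 := key ξ hξ
    linarith
  · intro ξ hξ
    have e1 := F.lift ξ hξ 0 z01
    have e2 := F.lift (RX ξ) (RX_box4 hξ) 0 z01
    rw [hR ξ hξ] at e2
    have hne : ‖h ξ 0‖ ≠ 0 := norm_ne_zero_iff.2 (F.mem ξ hξ 0 z01).1
    exact arg_diff hne (e2.symm.trans e1)

theorem slice_zero {h : (Fin 4 → ℝ) → ℝ → ℂ} {θ : (Fin 4 → ℝ) → ℝ → ℝ} (F : Fam h θ)
    (hx : ∀ ξ ∈ box4, ∃ x ∈ Ioo (0 : ℝ) 1, h ξ 0 = x) (h0 : θ 0 0 = 0) :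
    ∀ ξ ∈ box4, θ ξ 0 = 0 := by
  have z01 : (0 : ℝ) ∈ Icc (0 : ℝ) 1 := left_mem_Icc.2 zero_le_one
  have c1 : ContinuousOn (fun ξ : Fin 4 → ℝ => θ ξ 0) box4 :=
    F.contT.comp (f := fun ξ : Fin 4 → ℝ => (ξ, (0 : ℝ))) (by fun_prop) (fun x hx => ⟨hx, z01⟩)
  refine disc_zero box_pre c1 ?_ zero_box4 h0
  intro ξ hξ
  obtain ⟨x, hx, e⟩ := hx ξ hξ
  have e1 := F.lift ξ hξ 0 z01
  have hn : ‖h ξ 0‖ = x := by
    rw [e, Complex.norm_real, Real.norm_of_nonneg hx.1.le]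
  rw [hn, e] at e1
  obtain ⟨n, hn⟩ := arg_diff (r := x) (a := θ ξ 0) (b := 0) hx.1.ne' (by
    rw [← e1]; simp)
  exact ⟨n, by rw [← hn, sub_zero]⟩

/-- existence of lifts for one mass vector -/
theorem lifts_exist (hL : LiftStmt) (hS : SymStmt) {m : Fin 3 → ℝ} (hm : ∀ i, 0 < m i)
    (hI : ∀ ξ ∈ box4, ∃ x ∈ Ioo (0 : ℝ) 1, zc m (initB m ξ) = x)
    {dA dB : (Fin 4 → ℝ) → ℝ} {PA PB : (Fin 4 → ℝ) → ℝ → JS}
    (hA : Near initA uAB sAB LA gA m dA PA) (hB : Near initB uBA sBA LB gB m dB PB) :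
    ∃ θA θB, Lifts m PA PB θA θB := by
  have hA0 : ∀ ξ ∈ box4, ∀ τ ∈ Icc (0 : ℝ) 1, Free m (PA ξ τ) := fun ξ hξ τ hτ =>
    (hA.arc ξ hξ τ hτ).1
  have hB0 : ∀ ξ ∈ box4, ∀ τ ∈ Icc (0 : ℝ) 1, Free m (PB ξ τ) := fun ξ hξ τ hτ =>
    (hB.arc ξ hξ τ hτ).1
  obtain ⟨θA, FA, -⟩ := fam_exists hL hm hA.cont hA0 (fun ξ hξ => (hA.hR ξ hξ).1) hA.hX
    (θ₀ := arg (zc m (PA 0 0))) (by
      rw [mul_comm I]
      exact (Complex.norm_mul_exp_arg_mul_I _).symm)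
  obtain ⟨x0, hx0, e0⟩ := hI 0 zero_box4
  obtain ⟨θB, FB, hθB⟩ := fam_exists hL hm hB.cont hB0 (fun ξ hξ => (hB.hR ξ hξ).1) hB.hX
    (θ₀ := 0) (by
      rw [hB.start 0 zero_box4, e0]
      simp [abs_of_pos hx0.1])
  refine ⟨θA, θB, FA, FB, ?_, ?_⟩
  · refine slice_zero FB ?_ hθB
    intro ξ hξ
    obtain ⟨x, hx, e⟩ := hI ξ hξ
    exact ⟨x, hx, by rw [hB.start ξ hξ, e]⟩
  · refine slice_eq FA ?_
    intro ξ hξ
    show zc m (PA (RX ξ) 0) = zc m (PA ξ 0)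
    rw [hA.start ξ hξ, hA.start (RX ξ) (RX_box4 hξ), ← hS.2.2.1 m hm ξ, zc_rev]

theorem fin : FinStmt := by
  intro hQ hW hL hI hS hArc hNA hNB hMir hSol
  obtain ⟨ε₁, he₁, hI⟩ := hI
  obtain ⟨ε₂, he₂, hNA⟩ := hNA
  obtain ⟨ε₃, he₃, hNB⟩ := hNB
  obtain ⟨ε₄, he₄, hMir⟩ := hMir
  obtain ⟨ε₅, he₅, hSol⟩ := hSol
  refine ⟨min 1 (min (min ε₁ ε₂) (min ε₃ (min ε₄ ε₅))), by positivity, ?_⟩
  intro m hm γ
  have mono : ∀ {μ : Fin 3 → ℝ} {ε : ℝ}, min 1 (min (min ε₁ ε₂) (min ε₃ (min ε₄ ε₅))) ≤ ε →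
      Near1 (min 1 (min (min ε₁ ε₂) (min ε₃ (min ε₄ ε₅)))) μ → Near1 ε μ :=
    fun h hμ i => lt_of_lt_of_le (hμ i) h
  set ε := min 1 (min (min ε₁ ε₂) (min ε₃ (min ε₄ ε₅))) with hε
  have l0 : ε ≤ 1 := min_le_left _ _
  have l1 : ε ≤ ε₁ := (min_le_right _ _).trans ((min_le_left _ _).trans (min_le_left _ _))
  have l2 : ε ≤ ε₂ := (min_le_right _ _).trans ((min_le_left _ _).trans (min_le_right _ _))
  have l3 : ε ≤ ε₃ := (min_le_right _ _).trans ((min_le_right _ _).trans (min_le_left _ _))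
  have l4 : ε ≤ ε₄ := (min_le_right _ _).trans ((min_le_right _ _).trans
    ((min_le_right _ _).trans (min_le_left _ _)))
  have l5 : ε ≤ ε₅ := (min_le_right _ _).trans ((min_le_right _ _).trans
    ((min_le_right _ _).trans (min_le_right _ _)))
  have pos : ∀ μ : Fin 3 → ℝ, Near1 ε μ → ∀ i, 0 < μ i := by
    intro μ hμ i
    have := (abs_lt.1 (mono l0 hμ i)).1
    linarith
  have nlab : ∀ l : Equiv.Perm (Fin 3), Near1 ε (lab m l) := fun l i => hm (l i)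
  -- choice of the passages and lifts
  have key : ∀ μ : Fin 3 → ℝ, ∃ (dA dB : (Fin 4 → ℝ) → ℝ) (PA PB : (Fin 4 → ℝ) → ℝ → JS)
      (θA θB : (Fin 4 → ℝ) → ℝ → ℝ), Near1 ε μ → Near initA uAB sAB LA gA μ dA PA ∧
        Near initB uBA sBA LB gB μ dB PB ∧ (CoreData fun τ => zc μ (PB 0 τ)) ∧
        Lifts μ PA PB θA θB := by
    intro μ
    by_cases hμ : Near1 ε μ
    · obtain ⟨dA, PA, hA⟩ := hNA μ (mono l2 hμ)
      obtain ⟨dB, PB, hB, hc⟩ := hNB μ (mono l3 hμ)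
      obtain ⟨θA, θB, hl⟩ := lifts_exist hL hS (pos μ hμ)
        (fun ξ hξ => (hI μ (mono l1 hμ) ξ hξ).2.2) hA hB
      exact ⟨dA, dB, PA, PB, θA, θB, fun _ => ⟨hA, hB, hc, hl⟩⟩
    · exact ⟨0, 0, 0, 0, 0, 0, fun h => absurd h hμ⟩
  choose dA dB PA PB θA θB hk using key
  have hk' : ∀ μ, (μ = lab m lz ∨ μ = lab m lw) → Near initA uAB sAB LA gA μ (dA μ) (PA μ) ∧
      Near initB uBA sBA LB gB μ (dB μ) (PB μ) ∧ (CoreData fun τ => zc μ (PB μ 0 τ)) ∧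
      Lifts μ (PA μ) (PB μ) (θA μ) (θB μ) := by
    rintro μ (rfl | rfl)
    · exact hk _ (nlab lz)
    · exact hk _ (nlab lw)
  obtain ⟨N₀, hN₀⟩ := hMir m (mono l4 hm) dA dB PA PB θA θB
    (fun μ hμ => ⟨(hk' μ hμ).1, (hk' μ hμ).2.1, (hk' μ hμ).2.2.2⟩)
  -- topology
  obtain ⟨Z, hZ, hZinj⟩ := hQ m (pos m hm)
  obtain ⟨k, hkpos, n, hn⟩ := hW (Z.comp γ)
  set N : ℕ → ℤ := fun i =>
    if i % 2 = 0 then (N₀ : ℤ) + max (n (i / 2)) 0 else -(N₀ : ℤ) - max (-(n (i / 2))) 0 with hN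
  have hNcond : ∀ i < 4 * k, (N₀ : ℤ) ≤ (if i % 2 = 0 then N i else -N i) := by
    intro i _
    rw [hN]
    simp only
    split_ifs with h
    · have := le_max_right (n (i / 2)) 0
      omega
    · have := le_max_right (-(n (i / 2))) 0
      omega
  have hNsum : (fun j => N (2 * j) + N (2 * j + 1)) = n := by
    funext j
    rw [hN]
    simp only
    have h1 : 2 * j % 2 = 0 := by omega
    have h2 : ¬ ((2 * j + 1) % 2 = 0) := by omega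
    have h3 : 2 * j / 2 = j := by omega
    have h4 : (2 * j + 1) / 2 = j := by omega
    rw [if_pos h1, if_neg h2, h3, h4]
    rcases le_total (n j) 0 with h | h
    · rw [max_eq_right h, max_eq_left (by omega)]; ring
    · rw [max_eq_left h, max_eq_right (by omega)]; ring
  obtain ⟨ξ, dur, Q, u, hch⟩ := hN₀ k N hkpos hNcond
  obtain ⟨q, v, hs, T, U, hT, hU, hper, hen, ham, hword⟩ := hSol m (mono l5 hm) dA dB PA PB θA θB
    hk' k N hkpos ξ dur Q u hch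
  rw [hNsum] at hword
  refine ⟨q, v, hs, T, U, hT, hU, hper, hen, ham, ?_⟩
  -- the loop
  have hqc : Continuous q := by
    apply continuous_pi
    intro i
    rw [continuous_iff_continuousAt]
    intro t
    exact (hs.hq t i).continuousAt
  set f : ℝ → RConf m := fun t => cls ⟨q (T * t), hs.mem (T * t)⟩ with hf
  have hfc : Continuous f := by
    have h1 : Continuous (fun t : ℝ => (⟨q (T * t), hs.mem (T * t)⟩ : ConfM m)) :=
      Continuous.subtype_mk (hqc.comp (by fun_prop)) _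
    exact continuous_quotient_mk'.comp h1
  have hfp : Function.Periodic f 1 := by
    intro t
    rw [hf]
    simp only
    apply Quotient.sound
    refine ⟨U⁻¹, by rw [norm_inv, hU, inv_one], ?_⟩
    intro i
    have hU0 : U ≠ 0 := by
      rintro rfl
      simp at hU
    have : q (T * (t + 1)) i = U * q (T * t) i := by
      rw [mul_add, mul_one]
      exact hper _ _
    show q (T * t) i = U⁻¹ * q (T * (t + 1)) i
    rw [this, inv_mul_cancel_left₀ hU0]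
  have hlift : ∀ t : ℝ, hfp.lift (t : AddCircle (1 : ℝ)) = f t := fun t => hfp.lift_coe t
  have hδc : Continuous (hfp.lift : AddCircle (1 : ℝ) → RConf m) := by
    refine (QuotientAddGroup.isQuotientMap_mk
      (N := AddSubgroup.zmultiples (1 : ℝ))).continuous_iff.2 ?_
    exact hfc
  refine ⟨⟨hfp.lift, hδc⟩, fun t => hlift t, ?_⟩
  apply hZinj
  apply hn
  have e : (fun t : ℝ => (((Z.comp ⟨hfp.lift, hδc⟩ : C(AddCircle (1 : ℝ), C01))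
      (t : AddCircle (1 : ℝ)) : C01) : ℂ)) =
      fun t => (q (T * t) 2 - q (T * t) 0) / (q (T * t) 1 - q (T * t) 0) := by
    funext t
    show (Z (hfp.lift (t : AddCircle (1 : ℝ))) : ℂ) = _
    rw [hlift t, hZ]
  rw [e]
  exact hword

end

end Pool.Agent.HM.H26
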